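import Mathlib

/-!
# Module R/PInt: integrals of smooth functions over `[0, 1]` depend smoothly on parameters

Proof.  It suffices to prove by induction on `m : ℕ`, for all finite dimensional `G`, that
`x ↦ ∫ t in 0..1, F (x, t)` is `C^m` on `U` if `F : E × ℝ → G` is `C^∞` on the open set `V` and
`U × [0,1] ⊆ V` (`contDiffOn_infty`/`contDiffOn_iff_forall_nat_le`).
* `m = 0`: continuity at `x₀ ∈ U`: there is a compact ball `K` around `x₀` in `U`; `F` is continuous on
  the compact set `K × [0,1]`; `continuousOn` of parametric integrals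
  (`intervalIntegral.continuousAt_of_dominated_interval` with the constant bound, or uniform
  continuity on `K × [0,1]`).
* `m + 1`: `x ↦ ∫ F` has the derivative `∫ t in 0..1, (fderiv ℝ F (x, t)).comp (inl ℝ E ℝ)`
  (`intervalIntegral.hasFDerivAt_integral_of_dominated_of_fderiv_le` /
  `hasFDerivAt_integral_of_dominated_of_fderiv_le`, with a constant bound for the derivative on the
  compact set `K × [0,1]`; measurability from continuity), and the integrand is again `C^∞` on `V`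
  with values in the finite dimensional space `E →L[ℝ] G`.  Use
  `contDiffOn_succ_iff_hasFDerivWithinAt` or `contDiffOn_succ_iff_fderiv_of_isOpen`.
-/

set_option autoImplicit false

open scoped ContDiff Topology

namespace E214

section pint

variable {E : Type} [NormedAddCommGroup E] [NormedSpace ℝ E] [FiniteDimensional ℝ E]
  {G : Type} [NormedAddCommGroup G] [NormedSpace ℝ G]

/-- the partial derivative in the direction of the first factor -/
private noncomputable def pintD (F : E × ℝ → G) (p : E × ℝ) : E →L[ℝ] G :=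
  (fderiv ℝ F p).comp (ContinuousLinearMap.inl ℝ E ℝ)

omit [FiniteDimensional ℝ E] in
private theorem pintD_contDiffOn (V : Set (E × ℝ)) (hV : IsOpen V) (F : E × ℝ → G)
    (hF : ContDiffOn ℝ ∞ F V) : ContDiffOn ℝ ∞ (pintD F) V :=
  (hF.fderiv_of_isOpen hV (m := ∞) (by simp)).clm_comp contDiffOn_const

omit [FiniteDimensional ℝ E] in
private theorem pint_cont (V : Set (E × ℝ)) (F : E × ℝ → G) (hF : ContinuousOn F V) (x : E)
    (hx : ∀ t ∈ Set.Icc (0 : ℝ) 1, (x, t) ∈ V) :
    ContinuousOn (fun t : ℝ => F (x, t)) (Set.Icc 0 1) :=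
  hF.comp (Continuous.continuousOn (by fun_prop)) hx

omit [FiniteDimensional ℝ E] in
private theorem pint_intble (V : Set (E × ℝ)) (F : E × ℝ → G) (hF : ContinuousOn F V) (x : E)
    (hx : ∀ t ∈ Set.Icc (0 : ℝ) 1, (x, t) ∈ V) :
    IntervalIntegrable (fun t : ℝ => F (x, t)) MeasureTheory.volume 0 1 := by
  apply ContinuousOn.intervalIntegrable
  rw [Set.uIcc_of_le zero_le_one]
  exact pint_cont V F hF x hx

private theorem pint_hasFDerivAt (U : Set E) (hU : IsOpen U) (V : Set (E × ℝ)) (hV : IsOpen V)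
    (hUV : ∀ x ∈ U, ∀ t ∈ Set.Icc (0 : ℝ) 1, (x, t) ∈ V) (F : E × ℝ → G)
    (hF : ContDiffOn ℝ ∞ F V) (x₀ : E) (hx₀ : x₀ ∈ U) :
    HasFDerivAt (fun x => ∫ t in (0 : ℝ)..1, F (x, t)) (∫ t in (0 : ℝ)..1, pintD F (x₀, t)) x₀ := by
  obtain ⟨ε, hε, hK⟩ := Metric.nhds_basis_closedBall.mem_iff.1 (hU.mem_nhds hx₀)
  have hFc : ContinuousOn F V := hF.continuousOn
  have hDc : ContinuousOn (pintD F) V := (pintD_contDiffOn V hV F hF).continuousOn
  have hKc : IsCompact (Metric.closedBall x₀ ε ×ˢ Set.Icc (0 : ℝ) 1) :=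
    (isCompact_closedBall x₀ ε).prod isCompact_Icc
  have hKV : Metric.closedBall x₀ ε ×ˢ Set.Icc (0 : ℝ) 1 ⊆ V := by
    rintro ⟨x, t⟩ ⟨hx, ht⟩
    exact hUV x (hK hx) t ht
  obtain ⟨C, hC⟩ := hKc.exists_bound_of_continuousOn (hDc.mono hKV)
  have hsub : ∀ t ∈ Set.uIoc (0 : ℝ) 1, t ∈ Set.Icc (0 : ℝ) 1 := by
    intro t ht
    rw [Set.uIoc_of_le zero_le_one] at ht
    exact ⟨ht.1.le, ht.2⟩
  refine intervalIntegral.hasFDerivAt_integral_of_dominated_of_fderiv_le
    (F := fun x t => F (x, t)) (F' := fun x t => pintD F (x, t)) (bound := fun _ => C)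
    (s := Metric.closedBall x₀ ε) (Metric.closedBall_mem_nhds x₀ hε) ?_
    (pint_intble V F hFc x₀ (hUV x₀ hx₀)) ?_ ?_ (by simp) ?_
  · filter_upwards [hU.mem_nhds hx₀] with x hx
    exact (pint_intble V F hFc x (hUV x hx)).aestronglyMeasurable_restrict_uIoc
  · exact (pint_intble V (pintD F) hDc x₀ (hUV x₀ hx₀)).aestronglyMeasurable_restrict_uIoc
  · refine Filter.Eventually.of_forall fun t ht x hx => ?_
    exact hC (x, t) ⟨hx, hsub t ht⟩
  · refine Filter.Eventually.of_forall fun t ht x hx => ?_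
    have hxt : (x, t) ∈ V := hUV x (hK hx) t (hsub t ht)
    have h1 : HasFDerivAt F (fderiv ℝ F (x, t)) (x, t) :=
      ((hF.contDiffAt (hV.mem_nhds hxt)).differentiableAt (by simp)).hasFDerivAt
    exact h1.comp x (hasFDerivAt_prodMk_left x t)

end pint

private theorem pint_contDiffOn {E : Type} [NormedAddCommGroup E] [NormedSpace ℝ E]
    [FiniteDimensional ℝ E] (U : Set E) (hU : IsOpen U) (V : Set (E × ℝ)) (hV : IsOpen V)
    (hUV : ∀ x ∈ U, ∀ t ∈ Set.Icc (0 : ℝ) 1, (x, t) ∈ V) (m : ℕ) :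
    ∀ (G : Type) [NormedAddCommGroup G] [NormedSpace ℝ G] (F : E × ℝ → G),
      ContDiffOn ℝ ∞ F V → ContDiffOn ℝ m (fun x => ∫ t in (0 : ℝ)..1, F (x, t)) U := by
  induction m with
  | zero =>
    intro G _ _ F hF
    rw [Nat.cast_zero, contDiffOn_zero]
    intro x hx
    exact (pint_hasFDerivAt U hU V hV hUV F hF x hx).continuousAt.continuousWithinAt
  | succ m ih =>
    intro G _ _ F hF
    rw [Nat.cast_succ, contDiffOn_succ_iff_hasFDerivWithinAt_of_uniqueDiffOn hU.uniqueDiffOn]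
    refine ⟨fun h => absurd h (by simp), fun x => ∫ t in (0 : ℝ)..1, pintD F (x, t), ?_, ?_⟩
    · exact ih (E →L[ℝ] G) (pintD F) (pintD_contDiffOn V hV F hF)
    · intro x hx
      exact (pint_hasFDerivAt U hU V hV hUV F hF x hx).hasFDerivWithinAt

theorem contDiffOn_param_integral {E : Type} [NormedAddCommGroup E] [NormedSpace ℝ E]
    [FiniteDimensional ℝ E] (U : Set E) (hU : IsOpen U) (V : Set (E × ℝ)) (hV : IsOpen V)
    (hUV : ∀ x ∈ U, ∀ t ∈ Set.Icc (0 : ℝ) 1, (x, t) ∈ V) (F : E × ℝ → ℝ)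
    (hF : ContDiffOn ℝ ∞ F V) :
    ContDiffOn ℝ ∞ (fun x => ∫ t in (0 : ℝ)..1, F (x, t)) U ∧
      ∀ x ∈ U, ∀ v : E, fderiv ℝ (fun x => ∫ t in (0 : ℝ)..1, F (x, t)) x v
        = ∫ t in (0 : ℝ)..1, fderiv ℝ F (x, t) (v, 0) := by
  refine ⟨contDiffOn_infty.2 fun m => pint_contDiffOn U hU V hV hUV m ℝ F hF, fun x hx v => ?_⟩
  rw [(pint_hasFDerivAt U hU V hV hUV F hF x hx).fderiv]
  rw [ContinuousLinearMap.intervalIntegral_apply
    (pint_intble V (pintD F) (pintD_contDiffOn V hV F hF).continuousOn x (hUV x hx))]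
  rfl

end E214
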