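import Pool.Agent.Work.MP_e214ac_gt.RDefs

/-!
# Module R/InvF: local inverse of a smooth map of `ℝ^J` with invertible Jacobian

Proof.  The derivative of `Ψ` at `q` is the linear map with the matrix `(∂_a Ψ_j (q))`; its
determinant is not zero, so it is a continuous linear equivalence.  Apply
`ContDiffAt.toOpenPartialHomeomorph` (`HasStrictFDerivAt.toOpenPartialHomeomorph`).  The set of points
of `U` where the Jacobian determinant does not vanish is open (the partial derivatives are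
continuous on `U`), so after restricting the partial homeomorphism to it the inverse is `C^∞` at
every point of the target (`OpenPartialHomeomorph.contDiffAt_symm`); `V` = target.  The Jacobian of
`Φ` at `Ψ q` is the inverse matrix of the Jacobian of `Ψ` at `q` (chain rule for `Ψ ∘ Φ = id`).
-/

set_option autoImplicit false

open scoped ContDiff Topology

namespace E214

variable {J : Type} [Fintype J] [DecidableEq J]

private theorem invF_det (f : (J → ℝ) → (J → ℝ)) (q : J → ℝ) (hf : DifferentiableAt ℝ f q) :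
    (Matrix.of fun j a => pd a (fun y => f y j) q).det
      = LinearMap.det (fderiv ℝ f q : (J → ℝ) →ₗ[ℝ] (J → ℝ)) := by
  rw [← LinearMap.det_toMatrix']
  congr 1
  ext j a
  rw [Matrix.of_apply, LinearMap.toMatrix'_apply]
  unfold pd
  rw [fderiv_apply hf j]
  simp

private theorem invF_det' (f : (J → ℝ) → (J → ℝ)) (q : J → ℝ) (hf : DifferentiableAt ℝ f q) :
    (Matrix.of fun j a => pd j (fun y => f y a) q).det
      = LinearMap.det (fderiv ℝ f q : (J → ℝ) →ₗ[ℝ] (J → ℝ)) := by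
  rw [← invF_det f q hf, ← Matrix.det_transpose]
  rfl

theorem exists_local_inverse (Ψ : (J → ℝ) → (J → ℝ)) (U : Set (J → ℝ)) (hU : IsOpen U) (q : J → ℝ)
    (hq : q ∈ U) (hΨ : ContDiffOn ℝ ∞ Ψ U)
    (hdet : (Matrix.of fun j a => pd a (fun y => Ψ y j) q).det ≠ 0) :
    ∃ (Φ : (J → ℝ) → (J → ℝ)) (V : Set (J → ℝ)), IsOpen V ∧ Ψ q ∈ V ∧ ContDiffOn ℝ ∞ Φ V ∧
      Φ (Ψ q) = q ∧ (∀ z ∈ V, Φ z ∈ U ∧ Ψ (Φ z) = z) ∧
      (∀ᶠ y in 𝓝 q, Ψ y ∈ V ∧ Φ (Ψ y) = y) ∧
      (Matrix.of fun j a => pd j (fun z => Φ z a) (Ψ q)).det ≠ 0 := by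
  have hdiff : ∀ y ∈ U, DifferentiableAt ℝ Ψ y := fun y hy =>
    (hΨ.contDiffAt (hU.mem_nhds hy)).differentiableAt (by simp)
  have hcd : ContinuousOn (fderiv ℝ Ψ) U := hΨ.continuousOn_fderiv_of_isOpen hU (by simp)
  set d : (J → ℝ) → ℝ := fun y => (fderiv ℝ Ψ y).det with hd
  have hdc : ContinuousOn d U := (ContinuousLinearMap.continuous_det).comp_continuousOn hcd
  have hdq : d q ≠ 0 := by
    rw [invF_det Ψ q (hdiff q hq)] at hdet
    exact hdet
  have hU' : IsOpen (U ∩ d ⁻¹' {0}ᶜ) := hdc.isOpen_inter_preimage hU isOpen_compl_singleton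
  have hqa : ContDiffAt ℝ ∞ Ψ q := hΨ.contDiffAt (hU.mem_nhds hq)
  have hq1 : HasFDerivAt Ψ (((fderiv ℝ Ψ q).toContinuousLinearEquivOfDetNeZero hdq :
      (J → ℝ) ≃L[ℝ] (J → ℝ)) : (J → ℝ) →L[ℝ] (J → ℝ)) q := by
    rw [ContinuousLinearMap.coe_toContinuousLinearEquivOfDetNeZero]
    exact (hdiff q hq).hasFDerivAt
  set e := hqa.toOpenPartialHomeomorph Ψ hq1 (by simp) with he
  have hqe : q ∈ e.source := ContDiffAt.mem_toOpenPartialHomeomorph_source hqa hq1 (by simp)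
  set e' := e.restrOpen (U ∩ d ⁻¹' {0}ᶜ) hU' with he'
  have hsrc : e'.source = e.source ∩ (U ∩ d ⁻¹' {0}ᶜ) := rfl
  have hcoe : ∀ y, e' y = Ψ y := fun y => rfl
  have hqe' : q ∈ e'.source := ⟨hqe, hq, hdq⟩
  have htq : Ψ q ∈ e'.target := by
    have := e'.map_source hqe'
    rwa [hcoe] at this
  have hsm : ∀ z ∈ e'.target, ContDiffAt ℝ ∞ e'.symm z := by
    intro z hz
    have h1 : e'.symm z ∈ e'.source := e'.map_target hz
    have h2 : d (e'.symm z) ≠ 0 := h1.2.2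
    have h3 : e'.symm z ∈ U := h1.2.1
    refine e'.contDiffAt_symm (f₀' := (fderiv ℝ Ψ (e'.symm z)).toContinuousLinearEquivOfDetNeZero h2)
      hz ?_ (hΨ.contDiffAt (hU.mem_nhds h3))
    rw [ContinuousLinearMap.coe_toContinuousLinearEquivOfDetNeZero]
    exact (hdiff _ h3).hasFDerivAt
  have hinv : e'.symm (Ψ q) = q := by
    have := e'.left_inv hqe'
    rwa [hcoe] at this
  refine ⟨e'.symm, e'.target, e'.open_target, htq, fun z hz => (hsm z hz).contDiffWithinAt, hinv,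
    fun z hz => ⟨(e'.map_target hz).2.1, ?_⟩, ?_, ?_⟩
  · have := e'.right_inv hz
    rwa [hcoe] at this
  · filter_upwards [e'.open_source.mem_nhds hqe'] with y hy
    have h1 := e'.map_source hy
    have h2 := e'.left_inv hy
    rw [hcoe] at h1 h2
    exact ⟨h1, h2⟩
  · have hda : DifferentiableAt ℝ e'.symm (Ψ q) := (hsm _ htq).differentiableAt (by simp)
    rw [invF_det' e'.symm (Ψ q) hda]
    have h1 : HasFDerivAt (e'.symm ∘ Ψ) ((fderiv ℝ e'.symm (Ψ q)).comp (fderiv ℝ Ψ q)) q :=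
      hda.hasFDerivAt.comp q (hdiff q hq).hasFDerivAt
    have h2 : HasFDerivAt (e'.symm ∘ Ψ) (ContinuousLinearMap.id ℝ (J → ℝ)) q := by
      refine (hasFDerivAt_id q).congr_of_eventuallyEq ?_
      filter_upwards [e'.open_source.mem_nhds hqe'] with y hy
      have h3 := e'.left_inv hy
      rw [hcoe] at h3
      exact h3
    have h4 := h1.unique h2
    have h5 : LinearMap.det ((fderiv ℝ e'.symm (Ψ q) : (J → ℝ) →ₗ[ℝ] (J → ℝ)) ∘ₗ
        (fderiv ℝ Ψ q : (J → ℝ) →ₗ[ℝ] (J → ℝ))) = 1 := by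
      have h6 : (fderiv ℝ e'.symm (Ψ q) : (J → ℝ) →ₗ[ℝ] (J → ℝ)) ∘ₗ
        (fderiv ℝ Ψ q : (J → ℝ) →ₗ[ℝ] (J → ℝ)) = LinearMap.id := by
        have := congrArg (fun A : (J → ℝ) →L[ℝ] (J → ℝ) => (A : (J → ℝ) →ₗ[ℝ] (J → ℝ))) h4
        simpa using this
      rw [h6, LinearMap.det_id]
    rw [LinearMap.det_comp] at h5
    exact left_ne_zero_of_mul (by rw [h5]; exact one_ne_zero)

end E214
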