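import Pool.Agent.Work.MP_e214ac_gt.R.PoinL
import Pool.Agent.Work.MP_e214ac_gt.R.InvF
import Pool.Agent.Work.MP_e214ac_gt.S.DarbB

/-!
# Module R/Pot: the difference `V' - V` is locally Hamiltonian

Proof.  Let `u = D'.V - D.V`, a vector field on `W` with `lieB u br = 0` (`lie_V` for both) and
`u h = ∑ a'_l {ψ'_l, h} - ∑ a_l {ψ_l, h}` (`V_eq_a`), so `u` kills Casimirs; in particular
`u ψ_k = 0` for `k ∉ L` (`L`, `ψ`, `E`, `s`, `τ` those of `D`).  Put `ω_i = s_i u(ψ_{τ i})` for `i ∈ L`.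
From `lieB u br ψ_j ψ_k = 0`: `{u ψ_k, ψ_j} = {u ψ_j, ψ_k}`, i.e. `s_j E_{τ j} (u ψ_k) = s_k E_{τ k} (u ψ_j)`
(`br_psi`), which for `j = τ i`, `k = τ l` gives `E_i ω_l = E_l ω_i` (`i, l ∈ L`).
The map `Ψ = (ψ_j)_j : W → ℝ^J` is smooth with Jacobian matrix `(∂_a ψ_j)` at `q`, invertible because
`∑_a E_i(x_a) ∂_a ψ_j = δ_ij`.  Let `Φ` be its local inverse (`exists_local_inverse`), and
`ω̃_i = ω_i ∘ Φ` near `z₀ = Ψ q`.  Since `E_i g (y) = (∂_i (g ∘ Φ)) (Ψ y)` for `y` near `q` (both sides are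
derivations in `g`... precisely: `∂_a g = ∑_j ∂_a ψ_j (∂_j (g ∘ Φ))(Ψ y)` by the chain rule for
`g = (g ∘ Φ) ∘ Ψ`, and `E_i = ∑_a E_i(x_a) ∂_a`), the closedness carries over and
`poincare_leaf` gives `f̃` with `∂_i f̃ = ω̃_i` for `i ∈ L` near `z₀`.  Put `f = f̃ ∘ Ψ` on a small
`W' ∋ q`: `E_i f = ω_i` for `i ∈ L`.  Then `{f, ψ_k} = s_{τ k} E_{τ k} f = s_{τ k} s_{τ k} u(ψ_k) = u(ψ_k)`
for `k ∈ L`, and `{f, ψ_k} = 0 = u(ψ_k)` for `k ∉ L`.  Both sides of the claim are vector fields in `h`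
(on `W'`, restricted from `W`), so they agree: for `h ∈ Sm W`, at a point `y ∈ W'`:
`u h = ∑_k u(ψ_k) E_k h` (`frame_expand`) and `{f, h} = ∑_i s_i E_i f E_{τ i} h`
(`hbr`, evaluated with the restricted functions; the bracket of `stdAff W'` at `y` only involves the
components of `P` and the partial derivatives of `f` and `h` at `y`).
-/

set_option autoImplicit false

open scoped ContDiff Topology

namespace E214

open TopologicalSpace

variable {J : Type} [Fintype J] [DecidableEq J]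

/-- restriction to a smaller open set -/
noncomputable def Sm.restr {W' W : Opens (J → ℝ)} (h : W' ≤ W) : Sm W →ₐ[ℝ] Sm W' :=
  Sm.comp id contDiffOn_id (fun _ hz => h hz)

section algebra

variable {B : Type} [CommRing B] [Algebra ℝ B] {S : AffP J B}

/-- the vector field `V' - V` -/
private noncomputable def potU (D D' : Darb S) : Derivation ℝ B B := D'.V - D.V

private theorem potU_isVF (D D' : Darb S) : S.IsVF (potU D D') := by
  intro f
  have h1 := D'.isVF_V f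
  have h2 := D.isVF_V f
  unfold potU
  simp only [Derivation.sub_apply, sub_mul, Finset.sum_sub_distrib]
  rw [← h1, ← h2]

private theorem pot_zero (D D' : Darb S) (k : J) (hk : k ∉ D.L) : potU D D' (D.ψ k) = 0 := by
  have h0 : ∀ g, S.br g (D.ψ k) = 0 := by
    intro g
    rw [D.br_psi, D.hsτ]
    have : D.s k = 0 := by
      by_contra h
      exact hk ((D.mem_L k).2 h)
    rw [this, neg_zero, zero_smul]
  unfold potU
  rw [Derivation.sub_apply, D'.V_eq_a, D.V_eq_a]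
  simp only [h0, mul_zero, Finset.sum_const_zero, sub_zero]

private theorem pot_lie (D D' : Darb S) (f g : B) : lieB (potU D D') S.br f g = 0 := by
  have h1 := D.lie_V f g
  have h2 := D'.lie_V f g
  unfold lieB at h1 h2 ⊢
  unfold potU
  simp only [Derivation.sub_apply, (isBi_br S).sub_left, (isBi_br S).sub_right]
  linear_combination h2 - h1

/-- the closed form along the leaves -/
private noncomputable def potOm (D D' : Darb S) (i : J) : B := D.s i • potU D D' (D.ψ (D.τ i))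

private theorem pot_closed (D D' : Darb S) (i l : J) (hi : i ∈ D.L) (hl : l ∈ D.L) :
    D.E i (potOm D D' l) = D.E l (potOm D D' i) := by
  have h1 := pot_lie D D' (D.ψ (D.τ i)) (D.ψ (D.τ l))
  unfold lieB at h1
  rw [D.br_psi_psi, Derivation.map_algebraMap, D.br_psi, D.psi_br, D.hτ, D.hτ, D.hsτ] at h1
  have h2 : D.s i • D.E i (potU D D' (D.ψ (D.τ l))) = D.s l • D.E l (potU D D' (D.ψ (D.τ i))) := by
    rw [zero_sub, neg_smul] at h1
    linear_combination h1
  have hii := D.s_sq i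
  have hll := D.s_sq l
  rw [if_pos hi] at hii
  rw [if_pos hl] at hll
  unfold potOm
  rw [Derivation.map_smul, Derivation.map_smul]
  calc D.s l • D.E i (potU D D' (D.ψ (D.τ l)))
      = (D.s l * D.s i) • (D.s i • D.E i (potU D D' (D.ψ (D.τ l)))) := by
        rw [smul_smul, mul_assoc, hii, mul_one]
    _ = (D.s l * D.s i) • (D.s l • D.E l (potU D D' (D.ψ (D.τ i)))) := by rw [h2]
    _ = D.s i • D.E l (potU D D' (D.ψ (D.τ i))) := by
        rw [smul_smul, mul_comm (D.s l) (D.s i), mul_assoc, hll, mul_one]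

/-- the value of the bracket -/
private theorem pot_expand (D D' : Darb S) (h : B) :
    potU D D' h = ∑ j, D.s j • (potOm D D' j * D.E (D.τ j) h) := by
  rw [D.frame_expand _ (potU_isVF D D') h]
  have h1 : ∀ j, D.s j • (potOm D D' j * D.E (D.τ j) h)
      = potU D D' (D.ψ (D.τ j)) * D.E (D.τ j) h := by
    intro j
    unfold potOm
    rw [smul_mul_assoc, smul_smul, D.s_sq]
    by_cases hj : j ∈ D.L
    · rw [if_pos hj, one_smul]
    · rw [if_neg hj, zero_smul, pot_zero D D' _ (fun h' => hj ((D.tau_mem_L j).1 h')), zero_mul]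
  simp only [h1]
  refine Finset.sum_nbij' D.τ D.τ (by simp) (by simp) (by simp [D.hτ]) (by simp [D.hτ]) ?_
  intro j _
  rw [D.hτ]

end algebra

/-- evaluation at a point of `W` -/
private noncomputable def potEv {W : Opens (J → ℝ)} (y : W) : Sm W →ₐ[ℝ] ℝ :=
  (Pi.evalAlgHom ℝ (fun _ : W => ℝ) y).comp (Sm W).val

private theorem pot_fderiv_sum (f : (J → ℝ) → ℝ) (y v : J → ℝ) :
    fderiv ℝ f y v = ∑ a, v a * fderiv ℝ f y (Pi.single a 1) := by
  have h1 : v = ∑ a, v a • (Pi.single a 1 : J → ℝ) := by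
    funext b
    rw [Finset.sum_apply]
    simp [Pi.single_apply]
  conv_lhs => rw [h1]
  rw [map_sum]
  simp only [map_smul, smul_eq_mul]

section analysis

variable (W : Opens (J → ℝ)) (P : J → J → Sm W) (hP : ∀ a b, P a b = - P b a)

/-- the coordinate map -/
private noncomputable def potΨ {W : Opens (J → ℝ)} {P : J → J → Sm W}
    {hP : ∀ a b, P a b = - P b a} (D : Darb (stdAff W P hP)) (y : J → ℝ) (j : J) : ℝ :=
  ext0 W (D.ψ j).1 y

private theorem potΨ_smooth {W : Opens (J → ℝ)} {P : J → J → Sm W}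
    {hP : ∀ a b, P a b = - P b a} (D : Darb (stdAff W P hP)) : ContDiffOn ℝ ∞ (potΨ D) W :=
  contDiffOn_pi.2 fun j => (D.ψ j).2

/-- the vector with the components `E_i(x_a)` -/
private noncomputable def potVec {W : Opens (J → ℝ)} {P : J → J → Sm W}
    {hP : ∀ a b, P a b = - P b a} (D : Darb (stdAff W P hP)) (i : J) (y : W) (a : J) : ℝ :=
  (D.E i (smx a)).1 y

private theorem potVec_apply {W : Opens (J → ℝ)} {P : J → J → Sm W}
    {hP : ∀ a b, P a b = - P b a} (D : Darb (stdAff W P hP)) (i : J) (y : W) (g : Sm W) :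
    fderiv ℝ (ext0 W g.1) y (potVec D i y) = (D.E i g).1 y := by
  rw [pot_fderiv_sum]
  have h1 : D.E i g = ∑ a, D.E i (smx a) * smd a g := D.hE i g
  have h2 : (D.E i g).1 y = potEv y (D.E i g) := rfl
  rw [h2, h1, map_sum]
  refine Finset.sum_congr rfl fun a _ => ?_
  rw [map_mul]
  rfl

private theorem pot_jac {W : Opens (J → ℝ)} {P : J → J → Sm W}
    {hP : ∀ a b, P a b = - P b a} (D : Darb (stdAff W P hP)) (y : W) :
    (Matrix.of fun j a => pd a (fun x => potΨ D x j) y).det ≠ 0 := by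
  have h1 : (Matrix.of fun j a => pd a (fun x => potΨ D x j) (y : J → ℝ))
      * (Matrix.of fun a i => potVec D i y a) = 1 := by
    ext j i
    rw [Matrix.mul_apply, Matrix.one_apply]
    simp only [Matrix.of_apply]
    have h2 := potVec_apply D i y (D.ψ j)
    rw [pot_fderiv_sum, D.hEψ] at h2
    have h3 : (if i = j then (1 : Sm W) else 0).1 y = if j = i then (1 : ℝ) else 0 := by
      by_cases hij : i = j
      · rw [if_pos hij, if_pos hij.symm]; rfl
      · rw [if_neg hij, if_neg (Ne.symm hij)]; rfl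
    rw [h3] at h2
    rw [← h2]
    refine Finset.sum_congr rfl fun a _ => ?_
    rw [mul_comm]
    rfl
  intro h0
  have h2 := congrArg Matrix.det h1
  rw [Matrix.det_mul, h0, zero_mul, Matrix.det_one] at h2
  exact zero_ne_one h2

/-- partial derivatives in the Darboux coordinates -/
private theorem pot_pd {W : Opens (J → ℝ)} {P : J → J → Sm W}
    {hP : ∀ a b, P a b = - P b a} (D : Darb (stdAff W P hP)) (Φ : (J → ℝ) → (J → ℝ))
    (V : Set (J → ℝ)) (hV : IsOpen V) (hΦ : ContDiffOn ℝ ∞ Φ V)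
    (hinv : ∀ z ∈ V, Φ z ∈ (W : Set (J → ℝ)) ∧ potΨ D (Φ z) = z) (g : Sm W) (i : J) (z : J → ℝ)
    (hz : z ∈ V) : pd i (fun z => ext0 W g.1 (Φ z)) z = (D.E i g).1 ⟨Φ z, (hinv z hz).1⟩ := by
  have hzW : Φ z ∈ W := (hinv z hz).1
  have hΦd : HasFDerivAt Φ (fderiv ℝ Φ z) z :=
    ((hΦ.contDiffAt (hV.mem_nhds hz)).differentiableAt (by simp)).hasFDerivAt
  have hcomp : ∀ g : Sm W, fderiv ℝ (fun z => ext0 W g.1 (Φ z)) z
      = (fderiv ℝ (ext0 W g.1) (Φ z)).comp (fderiv ℝ Φ z) := by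
    intro g
    exact ((Sm.differentiableAt g hzW).hasFDerivAt.comp z hΦd).fderiv
  have hvec : fderiv ℝ Φ z (Pi.single i 1) = potVec D i ⟨Φ z, hzW⟩ := by
    have hM := pot_jac D ⟨Φ z, hzW⟩
    have hinj : Function.Injective (Matrix.mulVec
        (Matrix.of fun j a => pd a (fun x => potΨ D x j) (Φ z))) :=
      Matrix.mulVec_injective_iff_isUnit.2
        ((Matrix.isUnit_iff_isUnit_det _).2 (isUnit_iff_ne_zero.2 hM))
    apply hinj
    funext j
    have h1 : ∀ v : J → ℝ, Matrix.mulVec (Matrix.of fun j a => pd a (fun x => potΨ D x j) (Φ z)) v j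
        = fderiv ℝ (ext0 W (D.ψ j).1) (Φ z) v := by
      intro v
      rw [pot_fderiv_sum, Matrix.mulVec, dotProduct]
      refine Finset.sum_congr rfl fun a _ => ?_
      rw [Matrix.of_apply, mul_comm]
      rfl
    rw [h1, h1]
    have h2 := congrArg (fun A : (J → ℝ) →L[ℝ] ℝ => A (Pi.single i 1)) (hcomp (D.ψ j))
    simp only [ContinuousLinearMap.comp_apply] at h2
    rw [← h2]
    have h3 : (fun z => ext0 W (D.ψ j).1 (Φ z)) =ᶠ[𝓝 z] fun z => z j := by
      filter_upwards [hV.mem_nhds hz] with x hx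
      exact congrFun (hinv x hx).2 j
    have h4 : fderiv ℝ (fun z : J → ℝ => z j) z
        = (ContinuousLinearMap.proj j : (J → ℝ) →L[ℝ] ℝ) :=
      (ContinuousLinearMap.proj j : (J → ℝ) →L[ℝ] ℝ).hasFDerivAt.fderiv
    rw [h3.fderiv_eq, h4]
    have h5 := potVec_apply D i ⟨Φ z, hzW⟩ (D.ψ j)
    rw [D.hEψ] at h5
    refine Eq.trans ?_ h5.symm
    by_cases hij : i = j
    · subst hij
      rw [if_pos rfl]
      simp
    · rw [if_neg hij]
      simp [Ne.symm hij]
  unfold pd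
  rw [hcomp g, ContinuousLinearMap.comp_apply, hvec]
  exact potVec_apply D i ⟨Φ z, hzW⟩ g

end analysis

theorem exists_potential (W : Opens (J → ℝ)) (P : J → J → Sm W) (hP : ∀ a b, P a b = - P b a)
    (D D' : Darb (stdAff W P hP)) (q : J → ℝ) (hq : q ∈ W) :
    ∃ (W' : Opens (J → ℝ)) (hW' : W' ≤ W) (f : Sm W'), q ∈ W' ∧ ∀ (y : W') (h : Sm W),
      (D'.V h - D.V h).1 ⟨y, hW' y.2⟩
        = ∑ a, ∑ b, (P a b).1 ⟨y, hW' y.2⟩ * (smd a f).1 y * (smd b h).1 ⟨y, hW' y.2⟩ := by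
  obtain ⟨Φ, V, hV, hqV, hΦ, hΦq, hinv, hev, -⟩ := exists_local_inverse (potΨ D) W W.isOpen q hq
    (potΨ_smooth D) (pot_jac D ⟨q, hq⟩)
  set om : J → (J → ℝ) → ℝ := fun i z => ext0 W (potOm D D' i).1 (Φ z) with hom
  have homs : ∀ i ∈ D.L, ContDiffOn ℝ ∞ (om i) V := fun i _ =>
    (potOm D D' i).2.comp hΦ fun z hz => (hinv z hz).1
  have hcl : ∀ i ∈ D.L, ∀ k ∈ D.L, ∀ z ∈ V, pd i (om k) z = pd k (om i) z := by
    intro i hi k hk z hz
    rw [hom, pot_pd D Φ V hV hΦ hinv _ i z hz, pot_pd D Φ V hV hΦ hinv _ k z hz,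
      pot_closed D D' i k hi hk]
  obtain ⟨r, hr, hrV, f₀, hf₀, hf₀d⟩ := poincare_leaf D.L V hV (potΨ D q) hqV om homs hcl
  have hΨc : ContinuousAt (potΨ D) q :=
    ((potΨ_smooth D).contDiffAt (W.isOpen.mem_nhds hq)).continuousAt
  obtain ⟨N, hN, hNo, hqN⟩ := mem_nhds_iff.1 (((W.isOpen.eventually_mem hq).and
    (hΨc.eventually_mem (Metric.ball_mem_nhds _ hr))).and hev)
  refine ⟨⟨N, hNo⟩, fun y hy => (hN hy).1.1, Sm.mk (fun y => f₀ (potΨ D y))
    (hf₀.comp ((potΨ_smooth D).mono fun y hy => (hN hy).1.1) fun y hy => (hN hy).1.2), hqN, ?_⟩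
  rintro ⟨y, hy⟩ h
  have hyW : y ∈ W := (hN hy).1.1
  have hyB : potΨ D y ∈ Metric.ball (potΨ D q) r := (hN hy).1.2
  have hyΦ : Φ (potΨ D y) = y := (hN hy).2.2
  set Y : W := ⟨y, hyW⟩ with hY
  have hsmd : ∀ a, (smd a (Sm.mk (fun y => f₀ (potΨ D y))
      (hf₀.comp ((potΨ_smooth D).mono fun y hy => (hN hy).1.1) fun y hy => (hN hy).1.2) :
        Sm (⟨N, hNo⟩ : Opens (J → ℝ)))).1 ⟨y, hy⟩
      = ∑ j, pd j f₀ (potΨ D y) * (smd a (D.ψ j)).1 Y := by
    intro a
    have h1 := Sm.dir_mk (W := (⟨N, hNo⟩ : Opens (J → ℝ))) (Pi.single a 1)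
      (fun y => f₀ (potΨ D y))
      (hf₀.comp ((potΨ_smooth D).mono fun y hy => (hN hy).1.1) fun y hy => (hN hy).1.2) ⟨y, hy⟩
    refine h1.trans ?_
    have hfd : HasFDerivAt f₀ (fderiv ℝ f₀ (potΨ D y)) (potΨ D y) :=
      ((hf₀.contDiffAt (Metric.isOpen_ball.mem_nhds hyB)).differentiableAt (by simp)).hasFDerivAt
    have hΨd : HasFDerivAt (potΨ D) (fderiv ℝ (potΨ D) y) y :=
      (((potΨ_smooth D).contDiffAt (W.isOpen.mem_nhds hyW)).differentiableAt
        (by simp)).hasFDerivAt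
    have hc : fderiv ℝ (fun y => f₀ (potΨ D y)) y
        = (fderiv ℝ f₀ (potΨ D y)).comp (fderiv ℝ (potΨ D) y) := (hfd.comp y hΨd).fderiv
    change fderiv ℝ (fun y => f₀ (potΨ D y)) y (Pi.single a 1) = _
    rw [hc, ContinuousLinearMap.comp_apply, pot_fderiv_sum]
    refine Finset.sum_congr rfl fun j _ => ?_
    rw [mul_comm]
    congr 1
    have h2 : fderiv ℝ (fun y => potΨ D y j) y
        = (ContinuousLinearMap.proj j : (J → ℝ) →L[ℝ] ℝ).comp (fderiv ℝ (potΨ D) y) :=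
      fderiv_apply hΨd.differentiableAt j
    have h3 := congrArg (fun A : (J → ℝ) →L[ℝ] ℝ => A (Pi.single a 1)) h2
    exact h3.symm
  have hrhs : ∑ a, ∑ b, (P a b).1 Y * (∑ j, pd j f₀ (potΨ D y) * (smd a (D.ψ j)).1 Y)
        * (smd b h).1 Y
      = ∑ j, pd j f₀ (potΨ D y) * ((stdAff W P hP).br (D.ψ j) h).1 Y := by
    have h1 : ∀ j, ((stdAff W P hP).br (D.ψ j) h).1 Y
        = ∑ a, ∑ b, (P a b).1 Y * (smd a (D.ψ j)).1 Y * (smd b h).1 Y := by
      intro j
      have h2 : ((stdAff W P hP).br (D.ψ j) h).1 Y = potEv Y ((stdAff W P hP).br (D.ψ j) h) := rfl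
      rw [h2]
      unfold AffP.br
      rw [map_sum]
      refine Finset.sum_congr rfl fun a _ => ?_
      rw [map_sum]
      refine Finset.sum_congr rfl fun b _ => ?_
      rw [map_mul, map_mul]
      rfl
    simp only [h1, Finset.mul_sum, Finset.sum_mul]
    have h3 : ∀ a, ∑ b, ∑ j, (P a b).1 Y * (pd j f₀ (potΨ D y) * (smd a (D.ψ j)).1 Y)
        * (smd b h).1 Y
        = ∑ j, ∑ b, (P a b).1 Y * (pd j f₀ (potΨ D y) * (smd a (D.ψ j)).1 Y) * (smd b h).1 Y :=
      fun a => Finset.sum_comm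
    simp only [h3]
    rw [Finset.sum_comm]
    refine Finset.sum_congr rfl fun j _ => Finset.sum_congr rfl fun a _ =>
      Finset.sum_congr rfl fun b _ => ?_
    ring
  have hu : (D'.V h - D.V h).1 Y = (potU D D' h).1 Y := rfl
  change (D'.V h - D.V h).1 Y = ∑ a, ∑ b, (P a b).1 Y * _ * (smd b h).1 Y
  rw [hu]
  simp only [hsmd]
  rw [hrhs, pot_expand]
  have h5 : (∑ j, D.s j • (potOm D D' j * D.E (D.τ j) h) : Sm W).1 Y
      = ∑ j, D.s j * ((potOm D D' j).1 Y * (D.E (D.τ j) h).1 Y) := by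
    have h6 : (∑ j, D.s j • (potOm D D' j * D.E (D.τ j) h) : Sm W).1 Y
        = potEv Y (∑ j, D.s j • (potOm D D' j * D.E (D.τ j) h)) := rfl
    rw [h6, map_sum]
    refine Finset.sum_congr rfl fun j _ => ?_
    rw [map_smul, map_mul, smul_eq_mul]
    rfl
  rw [h5]
  refine Finset.sum_congr rfl fun j _ => ?_
  rw [D.psi_br]
  have h7 : (D.s j • D.E (D.τ j) h : Sm W).1 Y = D.s j * (D.E (D.τ j) h).1 Y := rfl
  rw [h7]
  by_cases hj : j ∈ D.L
  · rw [hf₀d j hj _ hyB, hom]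
    simp only [hyΦ]
    rw [ext0_of_mem _ hyW]
    ring
  · have h8 : D.s j = 0 := by
      by_contra h'
      exact hj ((D.mem_L j).2 h')
    rw [h8]
    ring

end E214
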