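import Pool.Agent.Work.MP_e214ac_gt.RDefs

/-!
# Module R/ExK: inverse Jacobian matrices of smooth functions

Proof.  Let `A : Matrix J J (Sm W)`, `A j a = Sm.dir (v j) (x a)`.  Evaluation at `z : W` is a ring
homomorphism `Sm W →+* ℝ`, so `(det A).1 z` is the determinant of the evaluated matrix
(`RingHom.map_det`), which is not zero.  By `Sm.exists_inv` there is `g` with `det A * g = 1`.  Put
`K = g • A.adjugate`: `K * A = g • (det A • 1) = 1` (`Matrix.adjugate_mul`).
-/

set_option autoImplicit false

namespace E214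

open TopologicalSpace

variable {J : Type} [Fintype J] [DecidableEq J]
variable {E : Type} [NormedAddCommGroup E] [NormedSpace ℝ E]

/-- evaluation at a point of `W` -/
private def exKEv {W : Opens E} (z : W) : Sm W →+* ℝ :=
  (Pi.evalRingHom (fun _ : W => ℝ) z).comp (Sm W).subtype

theorem exists_K {W : Opens E} (v : J → E) (x : J → Sm W)
    (hdet : ∀ z : W, (Matrix.of fun j a => (Sm.dir (v j) (x a)).1 z).det ≠ 0) :
    ∃ K : J → J → Sm W, ∀ a b, ∑ j, K a j * Sm.dir (v j) (x b) = if a = b then 1 else 0 := by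
  let A : Matrix J J (Sm W) := Matrix.of fun j a => Sm.dir (v j) (x a)
  have h1 : ∀ z : W, (A.det).1 z ≠ 0 := by
    intro z
    have h2 : (A.det).1 z = exKEv z A.det := rfl
    rw [h2, RingHom.map_det]
    exact hdet z
  obtain ⟨g, hg⟩ := Sm.exists_inv A.det h1
  refine ⟨fun a j => g * A.adjugate a j, fun a b => ?_⟩
  have h3 : (A.adjugate * A) a b = (A.det • (1 : Matrix J J (Sm W))) a b := by
    rw [Matrix.adjugate_mul]
  rw [Matrix.mul_apply, Matrix.smul_apply, smul_eq_mul, Matrix.one_apply] at h3
  have h4 : ∑ j, g * A.adjugate a j * Sm.dir (v j) (x b)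
      = g * ∑ j, A.adjugate a j * A j b := by
    rw [Finset.mul_sum]
    refine Finset.sum_congr rfl fun j _ => ?_
    rw [mul_assoc]
    rfl
  rw [h4, h3]
  split_ifs with hab
  · rw [mul_one, mul_comm]; exact hg
  · rw [mul_zero, mul_zero]

end E214
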