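import Pool.Agent.Work.MP_e214ac_gt.R.AffHoms
import Pool.Agent.Work.MP_e214ac_gt.R.ExK
import Pool.Agent.Work.MP_e214ac_gt.S.Flat
import Pool.Agent.Work.MP_e214ac_gt.S.PullEx
import Pool.Agent.Work.MP_e214ac_gt.S.PullB
import Pool.Agent.Work.MP_e214ac_gt.S.MorAff

/-!
# Module R/CasModel: no natural Casimirs on the model

The model lives on the whole of `ℝ^J`, the affine coordinates `φ` are an affine function of the
Darboux coordinates `z` outside a ball.

Proof.  Let `f` be a Casimir, `θ = m f + X f`.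
1. `θ` is a Casimir: for all `g`, `{m f, g} = β(ham f) g + Q f g = Q f g` (`hmeq`, `ham f = 0`,
   `β 0 = 0`), and `Q f g = lieB X br f g = X {f, g} - {X f, g} - {f, X g} = - {X f, g}` (`prim`).
   So `{θ, g} = 0`, hence `E_i θ = 0` for `i ∈ L` (`E_eq_zero_of_casimir`), where `E_i = smd i` (`hD`).
2. `θ = 0` outside the ball: let `O' = {z | R < ‖z‖}`, `φ'` the restriction of `φ`, `K'` the
   restriction of `K`; `model_restr` and `mor_of_affHom` give a morphism to
   `S' = modelAff O' ... φ' K'`, `pull_exists` a pull back `D'` of `D`.  On `O'` `E_i φ'_a = N_ai` is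
   constant (differentiate `hout`), so `S'.P a b = ∑ s_i N_ai N_b(τ i)` is constant and
   `S'.d c (S'.P a b) = 0`; `flat_cas` gives `D'.Cas`.  The restriction `f'` of `f` is a Casimir of `S'`
   (`E'_i f' = 0` for `i ∈ L`, `casimir_of_E_eq_zero`), and
   `0 = m' f' + X' f' = ` restriction of `θ` (`IsPull.m`, `pull_X`).
3. `L` has at least three elements; take `i ∈ L`.  For any `z` the function
   `t ↦ θ (z + t e_i)` has derivative `(E_i θ)(z + t e_i) = 0`, so it is constant, and for large `t` the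
   point `z + t e_i` is outside the ball (`|z_i + t| ≤ ‖z + t e_i‖`).  So `θ z = 0`.
-/

set_option autoImplicit false

open scoped ContDiff Topology

namespace E214

open TopologicalSpace

variable {J : Type} [Fintype J] [DecidableEq J] {n : ℕ}

/-- step 1: `m f + X f` is a Casimir -/
private theorem cas_step1 {B : Type} [CommRing B] [Algebra ℝ B] {S : AffP J B}
    {F : List (ℝ × Diagram n)} (D : PDat F S) (hn : 3 ≤ n) (f : B) (hf : ∀ g, S.br f g = 0)
    (g : B) : S.br (D.m f + D.X f) g = 0 := by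
  have h0 : S.ham f = 0 := by
    ext g
    rw [S.ham_apply, hf, Derivation.zero_apply]
  have h1 := D.hmeq f g
  have h2 : D.toDarb.op D.βop (S.ham f) g = 0 := by
    rw [h0]
    simp [Darb.op]
  rw [h2, zero_add] at h1
  have h3 := prim D hn f g
  have h4 : S.br f (D.X g) = 0 := hf _
  have h5 : (D.X : Derivation ℝ B B) (S.br f g) = 0 := by rw [hf, map_zero]
  simp only [lieB, h4, h5, sub_zero, zero_sub] at h3
  have h6 : S.br (D.m f + D.X f) g = S.br (D.m f) g + S.br (D.X f) g := by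
    simp only [AffP.br, map_add, mul_add, add_mul, Finset.sum_add_distrib]
  rw [h6, ← h1, ← h3]
  ring

/-- step 3: a smooth function on `ℝ^J` with vanishing derivative in the direction `i` which
vanishes outside a ball is zero -/
private theorem cas_step3 (θ : Sm (⊤ : Opens (J → ℝ))) (i : J) (hθ : smd i θ = 0) (R : ℝ)
    (hout : ∀ z : J → ℝ, R < ‖z‖ → θ.1 ⟨z, trivial⟩ = 0) : θ = 0 := by
  apply Sm.ext
  rintro ⟨z, hz⟩
  change θ.1 ⟨z, trivial⟩ = 0
  obtain ⟨u, hu⟩ : ∃ u : ℝ → ℝ, ∀ t, u t = ext0 ⊤ θ.1 (z + t • Pi.single i 1) := ⟨_, fun _ => rfl⟩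
  have hd : ∀ t, HasDerivAt u 0 t := by
    intro t
    have h1 : HasDerivAt (fun t : ℝ => z + t • (Pi.single i 1 : J → ℝ)) (Pi.single i 1) t := by
      have h2 := ((hasDerivAt_id t).smul_const (Pi.single i 1 : J → ℝ)).const_add z
      simpa using h2
    have h3 : DifferentiableAt ℝ (ext0 ⊤ θ.1) (z + t • Pi.single i 1) :=
      Sm.differentiableAt θ (show z + t • Pi.single i 1 ∈ (⊤ : Opens (J → ℝ)) from trivial)
    have h4 := h3.hasFDerivAt.comp_hasDerivAt t h1
    have h5 : fderiv ℝ (ext0 ⊤ θ.1) (z + t • Pi.single i 1) (Pi.single i 1) = 0 := by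
      have h6 : (smd i θ).1 ⟨z + t • Pi.single i 1, trivial⟩ = 0 := by rw [hθ]; rfl
      exact h6
    rw [h5] at h4
    exact h4.congr_of_eventuallyEq (Filter.Eventually.of_forall hu)
  have hc : ∀ t, u t = u 0 := fun t =>
    is_const_of_deriv_eq_zero (fun t => (hd t).differentiableAt) (fun t => (hd t).deriv) t 0
  have h0 : u 0 = θ.1 ⟨z, trivial⟩ := by
    rw [hu, zero_smul, add_zero]
    exact ext0_of_mem θ.1 (show z ∈ (⊤ : Opens (J → ℝ)) from trivial)
  rw [← h0, ← hc (|R| + |z i| + 1), hu]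
  refine (ext0_of_mem θ.1 (show z + (|R| + |z i| + 1) • Pi.single i 1 ∈ (⊤ : Opens (J → ℝ))
    from trivial)).trans (hout _ ?_)
  have h1 : ‖(z + (|R| + |z i| + 1) • (Pi.single i 1 : J → ℝ)) i‖
      ≤ ‖z + (|R| + |z i| + 1) • (Pi.single i 1 : J → ℝ)‖ := norm_le_pi_norm _ i
  refine lt_of_lt_of_le ?_ h1
  have h2 : (z + (|R| + |z i| + 1) • (Pi.single i 1 : J → ℝ)) i = z i + (|R| + |z i| + 1) := by
    simp
  rw [h2, Real.norm_eq_abs]
  have h3 := neg_abs_le (z i)
  have h4 := le_abs_self R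
  have h5 := le_abs_self (z i + (|R| + |z i| + 1))
  linarith

theorem cas_model (F : List (ℝ × Diagram n)) (hn : 3 ≤ n)
    (s : J → ℝ) (τ : J → J) (hτ : ∀ i, τ (τ i) = i) (hsτ : ∀ i, s (τ i) = - s i)
    (hs : ∀ i, s i = 0 ∨ s i = 1 ∨ s i = -1)
    (φ : J → Sm (⊤ : Opens (J → ℝ))) (K : J → J → Sm (⊤ : Opens (J → ℝ)))
    (hK : ∀ a b, ∑ j, K a j * smd j (φ b) = if a = b then 1 else 0)
    (D : PDat F (modelAff ⊤ s τ hτ hsτ φ K hK))
    (hD : D.toDarb = modelDarb ⊤ s τ hτ hsτ hs φ K hK)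
    (R : ℝ) (N : Matrix J J ℝ) (c : J → ℝ)
    (hout : ∀ z : J → ℝ, R < ‖z‖ → ∀ a, (φ a).1 ⟨z, trivial⟩ = ∑ b, N a b * z b + c a) :
    D.Cas := by
  intro f hf
  have hE : D.toDarb.toFrame.E = smd := by rw [hD]; rfl
  have h1 := cas_step1 D hn f hf
  obtain ⟨i₀, hi₀⟩ : D.L.Nonempty := by
    rw [← Finset.card_pos]
    have := D.hL
    omega
  refine cas_step3 (D.m f + D.X f) i₀ ?_ R ?_
  · rw [← hE]
    exact D.toDarb.E_eq_zero_of_casimir _ h1 i₀ hi₀
  -- step 2
  have hO : IsOpen {z : J → ℝ | R < ‖z‖} := isOpen_lt continuous_const continuous_norm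
  obtain ⟨W, hW⟩ : ∃ W : Opens (J → ℝ), (W : Set (J → ℝ)) = {z : J → ℝ | R < ‖z‖} :=
    ⟨⟨_, hO⟩, rfl⟩
  have hmem : ∀ z : J → ℝ, z ∈ W ↔ R < ‖z‖ := fun z => by
    rw [← SetLike.mem_coe, hW]; rfl
  have hle : W ≤ (⊤ : Opens (J → ℝ)) := le_top
  obtain ⟨ρ, hρ⟩ : ∃ ρ : Sm (⊤ : Opens (J → ℝ)) →ₐ[ℝ] Sm W,
      ρ = Sm.comp id contDiffOn_id (fun z hz => hle hz) := ⟨_, rfl⟩
  have hρd : ∀ i g, smd i (ρ g) = ρ (smd i g) := by
    intro i g
    subst hρ
    apply Sm.ext
    intro z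
    have h2 := Sm.dir_comp (W := (⊤ : Opens (J → ℝ))) (W' := W) id contDiffOn_id
      (fun z hz => hle hz) g (Pi.single i 1) z
    rw [fderiv_id] at h2
    exact h2
  have hK' : ∀ a b, ∑ j, ρ (K a j) * smd j (ρ (φ b)) = if a = b then 1 else 0 := by
    intro a b
    simp only [hρd, ← map_mul, ← map_sum, hK]
    split_ifs <;> simp
  have hmor : Mor F (modelAff ⊤ s τ hτ hsτ φ K hK)
      (modelAff W s τ hτ hsτ (fun a => ρ (φ a)) (fun a b => ρ (K a b)) hK') ρ := by
    have h2 := model_restr ⊤ W hle s τ hτ hsτ φ K hK (fun a => ρ (φ a)) (fun a b => ρ (K a b)) hK'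
      (fun a => by rw [hρ])
    rw [← hρ] at h2
    exact mor_of_affHom h2 F
  obtain ⟨D', hD'⟩ := pull_exists hmor D
  have hlin : ∀ i a, smd i (ρ (φ a)) = algebraMap ℝ (Sm W) (N a i) := by
    intro i a
    apply Sm.ext
    intro z
    change fderiv ℝ (ext0 W (ρ (φ a)).1) z (Pi.single i 1) = N a i
    have h3 : fderiv ℝ (ext0 W (ρ (φ a)).1) z
        = fderiv ℝ (fun y : J → ℝ => ∑ b, N a b * y b + c a) z := by
      refine fderiv_congr_on (W := W) (fun y hy => ?_) z.2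
      rw [ext0_of_mem _ hy, hρ]
      exact hout y ((hmem y).1 hy) a
    have h4 : HasFDerivAt (fun y : J → ℝ => ∑ b, N a b * y b + c a)
        (∑ b, N a b • (ContinuousLinearMap.proj b : (J → ℝ) →L[ℝ] ℝ)) z := by
      refine HasFDerivAt.add_const _ ?_
      refine HasFDerivAt.fun_sum fun b _ => ?_
      exact ((ContinuousLinearMap.proj b : (J → ℝ) →L[ℝ] ℝ).hasFDerivAt).const_mul (N a b)
    rw [h3, h4.fderiv]
    simp [Pi.single_apply]
  have hflat : ∀ a b e, (modelAff W s τ hτ hsτ (fun a => ρ (φ a)) (fun a b => ρ (K a b)) hK').d e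
      ((modelAff W s τ hτ hsτ (fun a => ρ (φ a)) (fun a b => ρ (K a b)) hK').P a b) = 0 := by
    intro a b e
    have h3 : (modelAff W s τ hτ hsτ (fun a => ρ (φ a)) (fun a b => ρ (K a b)) hK').P a b
        = algebraMap ℝ (Sm W) (∑ i, s i * (N a i * N b (τ i))) := by
      change ∑ i, s i • (smd i (ρ (φ a)) * smd (τ i) (ρ (φ b))) = _
      simp only [hlin, ← map_mul, Algebra.smul_def, ← map_sum]
    rw [h3, Derivation.map_algebraMap]
  have hcas' : D'.Cas := flat_cas D' hn hflat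
  have hE0 : ∀ i ∈ D'.L, D'.E i (ρ f) = 0 := by
    intro i hi
    rw [hD'.E, D.toDarb.E_eq_zero_of_casimir f hf i, map_zero]
    have h3 : D'.s i ≠ 0 := (D'.toDarb.mem_L i).1 hi
    rw [hD'.s] at h3
    exact (D.toDarb.mem_L i).2 h3
  have hfin := hcas' (ρ f) (D'.toDarb.casimir_of_E_eq_zero (ρ f) hE0)
  rw [hD'.m, pull_X hmor hD', ← map_add] at hfin
  intro z hz
  have h3 : (ρ (D.m f + D.X f)).1 ⟨z, (hmem z).2 hz⟩ = 0 := by rw [hfin]; rfl
  rw [hρ] at h3
  exact h3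

end E214
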