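import Pool.Agent.Work.MP_e214ac_gt.R.ClosedPar
import Pool.Agent.Work.MP_e214ac_gt.R.ExK
import Pool.Agent.Work.MP_e214ac_gt.S.Dual

/-!
# Module R/ClosedModel: `Q` and its variations are closed on the model

Proof.  Let `S = modelAff ...` and let `v` be a vector field, `ζ_a = v (φ_a)` (for the first claim take
`v = 0`, or any `v`).  Let `Ŵ ⊆ ℝ^J × ℝ` be the set of `(z, t)` with `z ∈ W` and
`det (E_j (φ_a + t ζ_a) (z)) ≠ 0` (open, contains `W × {0}`), `x̂_a (z, t) = φ_a(z) + t ζ_a(z)`,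
`K̂` from `exists_K`, `Ŝ = AffP.ofDarb parD ... x̂ K̂`.
The map `π : Sm Ŵ → B[ε]`, `B = Sm W`, `π f̂ = inl (f̂(·, 0)) + inr ((∂_t f̂)(·, 0))` is an algebra
homomorphism (`∂_t = Sm.dir (0, 1)`).  With `S^ε = S.dual ζ`:
* `π (∂̂_a f̂) = ∂^ε_a (π f̂)`: first components: `K̂(·,0) = K` (inverse matrices are unique) and
  `(E_j f̂)(·, 0) = E_j (f̂(·, 0))`.  Second components: differentiate
  `∑_a (E_j x̂_a) (∂̂_a f̂) = E_j f̂` (`ofDarb_expand`) with respect to `t` at `t = 0`: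
  `∑_a (E_j ζ_a) (∂_a f̂₀) + ∑_a (E_j φ_a) ∂_t(∂̂_a f̂)|₀ = E_j f̂₁`, where `f̂₀ = f̂(·,0)`,
  `f̂₁ = (∂_t f̂)(·,0)`; multiply by `K_bj` and sum over `j`:
  `∂_t(∂̂_b f̂)|₀ = ∂_b f̂₁ - ∑_a (∂_b ζ_a) ∂_a f̂₀`, as required.
* `π (x̂_a) = x^ε_a`, `π (P̂_ab) = P^ε_ab`: `∂_t ∑ s_i (E_i x̂_a)(E_{τ i} x̂_b)|₀ =
  {ζ_a, φ_b} + {φ_a, ζ_b}`.
Hence (`evalHom_map`) `π (Q̂_ab) = Q^ε_ab`, `π (Ŝ.Q F f̂ ĝ) = S^ε.Q F (π f̂) (π ĝ)`, the same for `br`.
For `f ∈ B` let `f̂ (z, t) = f z`; `π f̂ = inl f`.  Apply `π` to `closed_par` for `f̂, ĝ, ĥ`: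
`cyc S^ε.br (S^ε.Q F) (inl f) (inl g) (inl h) = 0`.  First components
(`dual_br_fst`, `dual_Q_fst`): `cyc S.br (S.Q F) f g h = 0`.  Second components
(`dual_br_snd`, `S^ε.br (inl f) (inl g) = inl (S.br f g)`): `cyc S.br (S.D F v) f g h = 0`.
-/

set_option autoImplicit false

open scoped ContDiff Topology

namespace E214

open TopologicalSpace

variable {J : Type} [Fintype J] [DecidableEq J] {n : ℕ}

/-- restriction to `t = 0` of the coordinates -/
private theorem cm_zero_smooth : ContDiff ℝ ∞ (fun z : J → ℝ => ((z, (0 : ℝ)) : (J → ℝ) × ℝ)) :=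
  contDiff_id.prodMk contDiff_const

/-- evaluation at `t = 0` -/
private noncomputable def cmEv {W : Opens (J → ℝ)} {V : Opens ((J → ℝ) × ℝ)}
    (h0 : ∀ z ∈ W, (z, (0 : ℝ)) ∈ V) : Sm V →ₐ[ℝ] Sm W :=
  Sm.comp (fun z : J → ℝ => ((z, (0 : ℝ)) : (J → ℝ) × ℝ)) cm_zero_smooth.contDiffOn h0

/-- the derivative with respect to `t` -/
private noncomputable def cmT {V : Opens ((J → ℝ) × ℝ)} : Derivation ℝ (Sm V) (Sm V) :=
  Sm.dir ((0 : J → ℝ), (1 : ℝ))

private theorem cm_ev_par {W : Opens (J → ℝ)} {V : Opens ((J → ℝ) × ℝ)}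
    (h0 : ∀ z ∈ W, (z, (0 : ℝ)) ∈ V) (j : J) (f : Sm V) :
    cmEv h0 (parD j f) = smd j (cmEv h0 f) := by
  apply Sm.ext
  intro z
  have h1 : (smd j (cmEv h0 f) : Sm W).1 z = fderiv ℝ (ext0 V f.1) ((z : J → ℝ), (0 : ℝ))
      (fderiv ℝ (fun z : J → ℝ => ((z, (0 : ℝ)) : (J → ℝ) × ℝ)) z (Pi.single j 1)) :=
    Sm.dir_comp _ cm_zero_smooth.contDiffOn h0 f _ z
  have h2 : HasFDerivAt (fun z : J → ℝ => ((z, (0 : ℝ)) : (J → ℝ) × ℝ))
      ((ContinuousLinearMap.id ℝ (J → ℝ)).prod 0) z :=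
    (hasFDerivAt_id (z : J → ℝ)).prodMk (hasFDerivAt_const 0 _)
  rw [h1, h2.fderiv]
  rfl

/-- the homomorphism to the dual numbers -/
private noncomputable def cmPi {W : Opens (J → ℝ)} {V : Opens ((J → ℝ) × ℝ)}
    (h0 : ∀ z ∈ W, (z, (0 : ℝ)) ∈ V) : Sm V →ₐ[ℝ] DualNumber (Sm W) where
  toFun f := TrivSqZeroExt.inl (cmEv h0 f) + TrivSqZeroExt.inr (cmEv h0 (cmT f))
  map_one' := by
    refine TrivSqZeroExt.ext ?_ ?_ <;> simp
  map_mul' f g := by
    refine TrivSqZeroExt.ext ?_ ?_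
    · simp
    · simp [mul_comm, add_comm]
  map_zero' := by
    refine TrivSqZeroExt.ext ?_ ?_ <;> simp
  map_add' f g := by
    refine TrivSqZeroExt.ext ?_ ?_ <;> simp
  commutes' c := by
    have h : (algebraMap ℝ (DualNumber (Sm W))) c = TrivSqZeroExt.inl (algebraMap ℝ (Sm W) c) := rfl
    rw [h]
    refine TrivSqZeroExt.ext ?_ ?_
    · simp
    · simp

private theorem cmPi_fst {W : Opens (J → ℝ)} {V : Opens ((J → ℝ) × ℝ)}
    (h0 : ∀ z ∈ W, (z, (0 : ℝ)) ∈ V) (f : Sm V) : (cmPi h0 f).fst = cmEv h0 f := by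
  change (TrivSqZeroExt.inl (cmEv h0 f) + TrivSqZeroExt.inr (cmEv h0 (cmT f))).fst = _
  simp

private theorem cmPi_snd {W : Opens (J → ℝ)} {V : Opens ((J → ℝ) × ℝ)}
    (h0 : ∀ z ∈ W, (z, (0 : ℝ)) ∈ V) (f : Sm V) : (cmPi h0 f).snd = cmEv h0 (cmT f) := by
  change (TrivSqZeroExt.inl (cmEv h0 f) + TrivSqZeroExt.inr (cmEv h0 (cmT f))).snd = _
  simp

private theorem cm_T_par {V : Opens ((J → ℝ) × ℝ)} (j : J) (f : Sm V) :
    cmT (parD j f) = parD j (cmT f) := Sm.dir_comm _ _ f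

/-- the general statement over the dual numbers -/
private theorem cm_dual (F : List (ℝ × Diagram n)) (hF : IsSymHom J F) (W : Opens (J → ℝ))
    (s : J → ℝ) (τ : J → J) (hτ : ∀ i, τ (τ i) = i) (hsτ : ∀ i, s (τ i) = - s i)
    (φ : J → Sm W) (K : J → J → Sm W)
    (hK : ∀ a b, ∑ j, K a j * smd j (φ b) = if a = b then 1 else 0) (ζ : J → Sm W)
    (f g h : Sm W) :
    cyc ((modelAff W s τ hτ hsτ φ K hK).dual ζ).br (((modelAff W s τ hτ hsτ φ K hK).dual ζ).Q F)
      (TrivSqZeroExt.inl f) (TrivSqZeroExt.inl g) (TrivSqZeroExt.inl h) = 0 := by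
  classical
  set S := modelAff W s τ hτ hsτ φ K hK with hS
  -- the cylinder over `W`
  let W1 : Opens ((J → ℝ) × ℝ) := ⟨{p | p.1 ∈ W}, W.isOpen.preimage continuous_fst⟩
  let X : J → ((J → ℝ) × ℝ) → ℝ := fun a p => ext0 W (φ a).1 p.1 + p.2 * ext0 W (ζ a).1 p.1
  have hfst : ∀ f : Sm W, ContDiffOn ℝ ∞ (fun p : (J → ℝ) × ℝ => ext0 W f.1 p.1) W1 :=
    fun f => f.2.comp contDiff_fst.contDiffOn (fun p hp => hp)
  have hX : ∀ a, ContDiffOn ℝ ∞ (X a) W1 := fun a =>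
    (hfst (φ a)).add (contDiff_snd.contDiffOn.mul (hfst (ζ a)))
  let A1 : Matrix J J (Sm W1) := Matrix.of fun j a => parD j (Sm.mk (X a) (hX a))
  let V : Opens ((J → ℝ) × ℝ) := ⟨{p | p ∈ W1 ∧ ext0 W1 A1.det.1 p ≠ 0}, by
    have h1 := A1.det.2.continuousOn.isOpen_inter_preimage W1.isOpen
      (isOpen_compl_singleton (x := (0 : ℝ)))
    exact h1⟩
  have hVW : ∀ p ∈ V, p ∈ W1 := fun p hp => hp.1
  have hXV : ∀ a, ContDiffOn ℝ ∞ (X a) V := fun a => (hX a).mono fun p hp => hVW p hp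
  let x : J → Sm V := fun a => Sm.mk (X a) (hXV a)
  have hparx : ∀ (j a : J) (p : V), (parD j (x a)).1 p
      = (parD j (Sm.mk (X a) (hX a) : Sm W1)).1 ⟨p, hVW p p.2⟩ := by
    intro j a p
    have h1 : (parD j (x a)).1 p = fderiv ℝ (X a) p ((Pi.single j 1 : J → ℝ), (0 : ℝ)) :=
      Sm.dir_mk _ _ _ p
    have h2 : (parD j (Sm.mk (X a) (hX a) : Sm W1)).1 ⟨p, hVW p p.2⟩
        = fderiv ℝ (X a) p ((Pi.single j 1 : J → ℝ), (0 : ℝ)) := Sm.dir_mk _ _ _ _
    rw [h1, h2]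
  have hdet : ∀ p : V, (Matrix.of fun j a => (parD j (x a)).1 p).det ≠ 0 := by
    intro p
    have hp := p.2.2
    rw [ext0_of_mem _ (hVW p p.2)] at hp
    let ev : Sm W1 →+* ℝ :=
      { toFun := fun f => f.1 ⟨p, hVW p p.2⟩
        map_one' := rfl
        map_mul' := fun _ _ => rfl
        map_zero' := rfl
        map_add' := fun _ _ => rfl }
    have h1 : ev A1.det = (A1.map ev).det := RingHom.map_det ev A1
    have h2 : (A1.map ev) = Matrix.of fun j a => (parD j (x a)).1 p := by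
      ext j a
      exact (hparx j a p).symm
    rw [← h2, ← h1]
    exact hp
  obtain ⟨KV, hKV⟩ := exists_K (W := V) (fun j : J => ((Pi.single j 1 : J → ℝ), (0 : ℝ))) x hdet
  have hKV' : ∀ a b, ∑ j, KV a j * parD j (x b) = if a = b then 1 else 0 := hKV
  -- the slice `t = 0`
  have hx0 : ∀ (a : J) (z : J → ℝ), X a (z, 0) = ext0 W (φ a).1 z := by
    intro a z
    change ext0 W (φ a).1 z + 0 * ext0 W (ζ a).1 z = _
    ring
  have h0 : ∀ z ∈ W, (z, (0 : ℝ)) ∈ V := by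
    intro z hz
    refine ⟨hz, ?_⟩
    rw [ext0_of_mem _ (show ((z, (0 : ℝ)) : (J → ℝ) × ℝ) ∈ W1 from hz)]
    have h01 : ∀ z ∈ W, ((z, (0 : ℝ)) : (J → ℝ) × ℝ) ∈ W1 := fun z hz => hz
    have hev : ∀ a, cmEv h01 (Sm.mk (X a) (hX a)) = φ a := by
      intro a
      apply Sm.ext
      intro z
      change X a ((z : J → ℝ), 0) = (φ a).1 z
      rw [hx0, ext0_coe]
    let ev : Sm W →+* ℝ :=
      { toFun := fun f => f.1 ⟨z, hz⟩
        map_one' := rfl
        map_mul' := fun _ _ => rfl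
        map_zero' := rfl
        map_add' := fun _ _ => rfl }
    have h1 : (Matrix.of K) * (Matrix.of fun j b => smd j (φ b)) = 1 := by
      ext a b
      rw [Matrix.mul_apply, Matrix.one_apply]
      exact congrArg (fun f : Sm W => f.1 _) (hK a b)
    have h2 : (Matrix.of K).det * (Matrix.of fun j b => smd j (φ b)).det = 1 := by
      rw [← Matrix.det_mul, h1, Matrix.det_one]
    have h3 : (A1.map (cmEv h01)) = Matrix.of fun j b => smd j (φ b) := by
      ext j a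
      change (cmEv h01 (parD j (Sm.mk (X a) (hX a)))).1 _ = _
      rw [cm_ev_par, hev]
      rfl
    have h4 : cmEv h01 A1.det = (Matrix.of fun j b => smd j (φ b)).det := by
      rw [← h3]
      exact AlgHom.map_det (cmEv h01) A1
    have h5 : A1.det.1 ⟨(z, 0), hz⟩ = ev ((Matrix.of fun j b => smd j (φ b)).det) := by
      rw [← h4]
      rfl
    rw [h5]
    intro h6
    have h7 := congrArg ev h2
    rw [map_mul, h6, mul_zero, map_one] at h7
    exact zero_ne_one h7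
  have hev0 : ∀ a, cmEv h0 (x a) = φ a := by
    intro a
    apply Sm.ext
    intro z
    change X a ((z : J → ℝ), 0) = (φ a).1 z
    rw [hx0, ext0_coe]
  have hevT : ∀ a, cmEv h0 (cmT (x a)) = ζ a := by
    intro a
    apply Sm.ext
    intro z
    have h1 : (cmT (x a)).1 ⟨((z : J → ℝ), 0), h0 z z.2⟩
        = fderiv ℝ (X a) ((z : J → ℝ), 0) ((0 : J → ℝ), (1 : ℝ)) := Sm.dir_mk _ _ _ _
    change (cmT (x a)).1 ⟨((z : J → ℝ), 0), h0 z z.2⟩ = (ζ a).1 z
    rw [h1]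
    have h2 : HasDerivAt (fun t : ℝ => X a ((z : J → ℝ), t)) (ext0 W (ζ a).1 z) 0 := by
      have := ((hasDerivAt_id (0 : ℝ)).mul_const (ext0 W (ζ a).1 z)).const_add (ext0 W (φ a).1 z)
      rw [one_mul] at this
      exact this
    have h3 : DifferentiableAt ℝ (X a) ((z : J → ℝ), (0 : ℝ)) :=
      ((hXV a).contDiffAt (V.isOpen.mem_nhds (h0 z z.2))).differentiableAt (by simp)
    have h4 : HasDerivAt (fun t : ℝ => ((z : J → ℝ), t)) ((0 : J → ℝ), (1 : ℝ)) 0 :=
      (hasDerivAt_const (0 : ℝ) (z : J → ℝ)).prodMk (hasDerivAt_id (0 : ℝ))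
    have h5 := h3.hasFDerivAt.comp_hasDerivAt (0 : ℝ) h4
    rw [← ext0_coe (ζ a).1 z]
    exact h5.unique h2
  -- the structure on the cylinder
  set SV := AffP.ofDarb (parD (W := V)) parD_comm s τ hτ hsτ x KV hKV' with hSV
  have hSd : ∀ (b : J) (f : Sm W), S.d b f = ∑ j, K b j * smd j f := by
    intro b f
    exact der_comb_apply (K b) (fun j => smd j) f
  have hexp : ∀ (j : J) (f : Sm V), parD j f = ∑ a, parD j (x a) * SV.d a f := fun j f =>
    ofDarb_expand (parD (W := V)) parD_comm s τ hτ hsτ x KV hKV' j f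
  have hd0 : ∀ (b : J) (f : Sm V), cmEv h0 (SV.d b f) = S.d b (cmEv h0 f) := by
    intro b f
    have h1 : ∀ j, smd j (cmEv h0 f) = ∑ a, smd j (φ a) * cmEv h0 (SV.d a f) := by
      intro j
      rw [← cm_ev_par h0 j f, hexp j f, map_sum]
      refine Finset.sum_congr rfl fun a _ => ?_
      rw [map_mul, cm_ev_par, hev0]
    rw [hSd]
    simp only [h1, Finset.mul_sum]
    rw [Finset.sum_comm]
    have h2 : ∀ a, ∑ j, K b j * (smd j (φ a) * cmEv h0 (SV.d a f))
        = (if b = a then 1 else 0) * cmEv h0 (SV.d a f) := by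
      intro a
      rw [← hK b a, Finset.sum_mul]
      exact Finset.sum_congr rfl fun j _ => by ring
    simp [h2]
  have hd1 : ∀ (b : J) (f : Sm V), cmEv h0 (cmT (SV.d b f))
      = S.d b (cmEv h0 (cmT f)) - ∑ a, S.d b (ζ a) * S.d a (cmEv h0 f) := by
    intro b f
    have h1 : ∀ j, smd j (cmEv h0 (cmT f)) = ∑ a, smd j (ζ a) * S.d a (cmEv h0 f)
        + ∑ a, smd j (φ a) * cmEv h0 (cmT (SV.d a f)) := by
      intro j
      rw [← cm_ev_par h0 j (cmT f), ← cm_T_par, hexp j f, map_sum, map_sum,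
        ← Finset.sum_add_distrib]
      refine Finset.sum_congr rfl fun a _ => ?_
      rw [Derivation.leibniz, smul_eq_mul, smul_eq_mul, map_add, map_mul, map_mul, cm_ev_par,
        hev0, cm_T_par, cm_ev_par, hevT, hd0]
      ring
    have h2 : S.d b (cmEv h0 (cmT f)) = ∑ a, S.d b (ζ a) * S.d a (cmEv h0 f)
        + cmEv h0 (cmT (SV.d b f)) := by
      rw [hSd b (cmEv h0 (cmT f))]
      simp only [h1, mul_add, Finset.sum_add_distrib, Finset.mul_sum]
      congr 1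
      · rw [Finset.sum_comm]
        refine Finset.sum_congr rfl fun a _ => ?_
        rw [hSd b (ζ a), Finset.sum_mul]
        exact Finset.sum_congr rfl fun j _ => by ring
      · rw [Finset.sum_comm]
        have h3 : ∀ a, ∑ j, K b j * (smd j (φ a) * cmEv h0 (cmT (SV.d a f)))
            = (if b = a then 1 else 0) * cmEv h0 (cmT (SV.d a f)) := by
          intro a
          rw [← hK b a, Finset.sum_mul]
          exact Finset.sum_congr rfl fun j _ => by ring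
        simp [h3]
    rw [h2]
    ring
  have hdual_d : ∀ (a : J) (f : Sm V), cmPi h0 (SV.d a f) = (S.dual ζ).d a (cmPi h0 f) := by
    intro a f
    refine TrivSqZeroExt.ext ?_ ?_
    · change (cmPi h0 (SV.d a f)).fst = (S.dualDer ζ a (cmPi h0 f)).fst
      rw [S.dualDer_fst, cmPi_fst, cmPi_fst, hd0]
    · change (cmPi h0 (SV.d a f)).snd = (S.dualDer ζ a (cmPi h0 f)).snd
      rw [S.dualDer_snd, cmPi_snd, cmPi_snd, cmPi_fst, hd1]
  have hSbr : ∀ f g : Sm W, S.br f g = ∑ i, s i • (smd i f * smd (τ i) g) := by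
    intro f g
    have h1 : ∀ i, s i • (smd i f * smd (τ i) g) = ∑ a, ∑ b, (s i •
        (smd i (φ a) * smd (τ i) (φ b))) * S.d a f * S.d b g := by
      intro i
      have e1 : smd i f = ∑ a, smd i (φ a) * S.d a f :=
        ofDarb_expand (smFrame W).E (smFrame W).hEE s τ hτ hsτ φ K hK i f
      have e2 : smd (τ i) g = ∑ a, smd (τ i) (φ a) * S.d a g :=
        ofDarb_expand (smFrame W).E (smFrame W).hEE s τ hτ hsτ φ K hK (τ i) g
      rw [e1, e2, Finset.sum_mul_sum, Finset.smul_sum]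
      refine Finset.sum_congr rfl fun a _ => ?_
      rw [Finset.smul_sum]
      refine Finset.sum_congr rfl fun b _ => ?_
      simp only [smul_mul_assoc]
      congr 1
      ring
    simp only [h1]
    rw [Finset.sum_comm]
    refine Finset.sum_congr rfl fun a _ => ?_
    rw [Finset.sum_comm]
    refine Finset.sum_congr rfl fun b _ => ?_
    change (∑ i, s i • (smd i (φ a) * smd (τ i) (φ b))) * _ * _ = _
    rw [Finset.sum_mul, Finset.sum_mul]
  have hdual_P : ∀ a b : J, cmPi h0 (SV.P a b) = (S.dual ζ).P a b := by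
    intro a b
    have hP : SV.P a b = ∑ i, s i • (parD i (x a) * parD (τ i) (x b)) := rfl
    have hP2 : (S.dual ζ).P a b = TrivSqZeroExt.inl (S.P a b)
        + TrivSqZeroExt.inr (S.br (ζ a) (S.x b) + S.br (S.x a) (ζ b)) := rfl
    have hP3 : S.P a b = ∑ i, s i • (smd i (φ a) * smd (τ i) (φ b)) := rfl
    have hx : ∀ a, S.x a = φ a := fun _ => rfl
    refine TrivSqZeroExt.ext ?_ ?_
    · rw [cmPi_fst, hP, hP2, TrivSqZeroExt.fst_add, TrivSqZeroExt.fst_inl, TrivSqZeroExt.fst_inr,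
        add_zero, hP3, map_sum]
      refine Finset.sum_congr rfl fun i _ => ?_
      rw [map_smul, map_mul, cm_ev_par, cm_ev_par, hev0, hev0]
    · rw [cmPi_snd, hP, hP2, TrivSqZeroExt.snd_add, TrivSqZeroExt.snd_inl, TrivSqZeroExt.snd_inr,
        zero_add, hx, hx, hSbr, hSbr, ← Finset.sum_add_distrib, map_sum, map_sum]
      refine Finset.sum_congr rfl fun i _ => ?_
      rw [Derivation.map_smul, map_smul, Derivation.leibniz, smul_eq_mul, smul_eq_mul, map_add,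
        map_mul, map_mul, cm_T_par, cm_T_par, cm_ev_par, cm_ev_par, cm_ev_par, cm_ev_par, hev0,
        hev0, hevT, hevT, ← smul_add]
      congr 1
      ring
  have hQc : ∀ a b : J, cmPi h0 (SV.Qc F a b) = (S.dual ζ).Qc F a b := by
    intro a b
    have h1 := evalHom_map (cmPi h0) (fun c f => SV.d c f) (fun c f => (S.dual ζ).d c f)
      hdual_d SV.P F a b
    have h2 : (fun a b => cmPi h0 (SV.P a b)) = (S.dual ζ).P := by
      funext a b
      exact hdual_P a b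
    rw [h2] at h1
    exact h1
  have hQ : ∀ f g : Sm V, cmPi h0 (SV.Q F f g) = (S.dual ζ).Q F (cmPi h0 f) (cmPi h0 g) := by
    intro f g
    unfold AffP.Q
    simp only [map_sum, map_mul, hQc, hdual_d]
  have hbr : ∀ f g : Sm V, cmPi h0 (SV.br f g) = (S.dual ζ).br (cmPi h0 f) (cmPi h0 g) := by
    intro f g
    unfold AffP.br
    simp only [map_sum, map_mul, hdual_P, hdual_d]
  -- extension by constants in `t`
  have hup : ∀ f : Sm W, ∃ f' : Sm V, cmPi h0 f' = TrivSqZeroExt.inl f := by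
    intro f
    refine ⟨Sm.mk (fun p => ext0 W f.1 p.1) ((hfst f).mono fun p hp => hVW p hp), ?_⟩
    refine TrivSqZeroExt.ext ?_ ?_
    · rw [cmPi_fst, TrivSqZeroExt.fst_inl]
      apply Sm.ext
      intro z
      change ext0 W f.1 z = f.1 z
      rw [ext0_coe]
    · rw [cmPi_snd, TrivSqZeroExt.snd_inl]
      apply Sm.ext
      intro z
      have h1 : (cmT (Sm.mk (fun p : (J → ℝ) × ℝ => ext0 W f.1 p.1)
          ((hfst f).mono fun p hp => hVW p hp) : Sm V)).1 ⟨((z : J → ℝ), 0), h0 z z.2⟩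
          = fderiv ℝ (fun p : (J → ℝ) × ℝ => ext0 W f.1 p.1) ((z : J → ℝ), 0)
            ((0 : J → ℝ), (1 : ℝ)) := Sm.dir_mk _ _ _ _
      change (cmT (Sm.mk (fun p : (J → ℝ) × ℝ => ext0 W f.1 p.1)
          ((hfst f).mono fun p hp => hVW p hp) : Sm V)).1 ⟨((z : J → ℝ), 0), h0 z z.2⟩ = 0
      rw [h1]
      have h3 : DifferentiableAt ℝ (fun p : (J → ℝ) × ℝ => ext0 W f.1 p.1)
          ((z : J → ℝ), (0 : ℝ)) :=
        ((hfst f).contDiffAt (W1.isOpen.mem_nhds (hVW _ (h0 z z.2)))).differentiableAt (by simp)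
      have h4 : HasDerivAt (fun t : ℝ => ((z : J → ℝ), t)) ((0 : J → ℝ), (1 : ℝ)) 0 :=
        (hasDerivAt_const (0 : ℝ) (z : J → ℝ)).prodMk (hasDerivAt_id (0 : ℝ))
      have h5 := h3.hasFDerivAt.comp_hasDerivAt (0 : ℝ) h4
      exact h5.unique (hasDerivAt_const (0 : ℝ) (ext0 W f.1 z))
  obtain ⟨f', hf'⟩ := hup f
  obtain ⟨g', hg'⟩ := hup g
  obtain ⟨h', hh'⟩ := hup h
  have key := congrArg (cmPi h0) (closed_par F hF V s τ hτ hsτ x KV hKV' f' g' h')
  rw [← hSV, map_zero] at key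
  unfold cyc at key ⊢
  simp only [map_add, hQ, hbr, hf', hg', hh'] at key
  exact key

private theorem cm_br_zero_right {B : Type} [CommRing B] [Algebra ℝ B] (S : AffP J B) (f : B) :
    S.br f 0 = 0 := by
  unfold AffP.br
  simp

private theorem cm_br_zero_left {B : Type} [CommRing B] [Algebra ℝ B] (S : AffP J B) (f : B) :
    S.br 0 f = 0 := by
  unfold AffP.br
  simp

theorem closed_model (F : List (ℝ × Diagram n)) (hF : IsSymHom J F) (W : Opens (J → ℝ))
    (s : J → ℝ) (τ : J → J) (hτ : ∀ i, τ (τ i) = i) (hsτ : ∀ i, s (τ i) = - s i)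
    (φ : J → Sm W) (K : J → J → Sm W)
    (hK : ∀ a b, ∑ j, K a j * smd j (φ b) = if a = b then 1 else 0) :
    (modelAff W s τ hτ hsτ φ K hK).Closed F := by
  have hbr : ∀ (ζ : J → Sm W) (f g : Sm W),
      ((modelAff W s τ hτ hsτ φ K hK).dual ζ).br (TrivSqZeroExt.inl f) (TrivSqZeroExt.inl g)
        = TrivSqZeroExt.inl ((modelAff W s τ hτ hsτ φ K hK).br f g) := by
    intro ζ f g
    refine TrivSqZeroExt.ext ?_ ?_
    · rw [dual_br_fst]
      simp
    · rw [dual_br_snd]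
      simp only [TrivSqZeroExt.fst_inl, TrivSqZeroExt.snd_inl]
      rw [cm_br_zero_right, cm_br_zero_left, add_zero]
  constructor
  · intro f g h
    have key := congrArg TrivSqZeroExt.fst (cm_dual F hF W s τ hτ hsτ φ K hK (fun _ => 0) f g h)
    unfold cyc at key ⊢
    simpa only [TrivSqZeroExt.fst_add, dual_br_fst, dual_Q_fst, TrivSqZeroExt.fst_inl,
      TrivSqZeroExt.fst_zero] using key
  · intro v _ f g h
    have key := congrArg TrivSqZeroExt.snd (cm_dual F hF W s τ hτ hsτ φ K hK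
      (fun a => v ((modelAff W s τ hτ hsτ φ K hK).x a)) f g h)
    unfold cyc at key ⊢
    simp only [TrivSqZeroExt.snd_add, dual_br_snd, hbr, TrivSqZeroExt.snd_inl,
      TrivSqZeroExt.fst_inl, TrivSqZeroExt.snd_zero, cm_br_zero_right, zero_add] at key
    unfold AffP.D
    exact key

end E214
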