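import Pool.Agent.Work.MP_e214ac_gt.RDefs

/-!
# Module R/Cut: extension of a germ of a diffeomorphism to a map of `ℝ^J` that is affine far away

Proof.  Let `A = DΦ(z₀)` (invertible), `lin z = Φ z₀ + A (z - z₀)`.  `Φ` is smooth on `V`, so there are
`δ, C > 0` with `ball z₀ δ ⊆ V`, `‖Φ z - lin z‖ ≤ C ‖z - z₀‖²` and `‖DΦ(z) - A‖ ≤ C ‖z - z₀‖` for `‖z - z₀‖ ≤ δ`
(`DΦ` is Lipschitz near `z₀`; mean value inequality on the ball).  Let `χ` be a smooth bump function on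
`ℝ^J`, `χ = 1` on the ball of radius `1`, `χ = 0` outside the ball of radius `2`, values in `[0,1]`,
with `‖Dχ‖ ≤ C'` (compact support; `ContDiffBump`, or any bump function).  For
`0 < ε`, `2 ε ≤ δ` put `φ z = lin z + χ((z - z₀)/ε) (Φ z - lin z)` if `‖z - z₀‖ < δ`, and `φ z = lin z`
otherwise (the two definitions agree where `2 ε ≤ ‖z - z₀‖ < δ`), so `φ` is smooth.  And
`‖Dφ(z) - A‖ ≤ (C'/ε) C (2ε)² + C (2ε)`, which tends to `0` with `ε`; since the determinant is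
continuous (or: invertible operators are open, `A` invertible), the Jacobian matrix of `φ` is
invertible everywhere for small `ε`.  `φ = Φ` on the ball of radius `ε`; outside the ball of radius
`2 ε` around `z₀` `φ = lin` is affine: `R = ‖z₀‖ + 2 ε`.
-/

set_option autoImplicit false

open scoped ContDiff Topology

namespace E214

variable {J : Type} [Fintype J] [DecidableEq J]

private theorem cut_det (f : (J → ℝ) → (J → ℝ)) (q : J → ℝ) (hf : DifferentiableAt ℝ f q) :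
    (Matrix.of fun j a => pd j (fun y => f y a) q).det = (fderiv ℝ f q).det := by
  have h1 : (fderiv ℝ f q).det = LinearMap.det (fderiv ℝ f q : (J → ℝ) →ₗ[ℝ] (J → ℝ)) := rfl
  rw [h1, ← LinearMap.det_toMatrix', ← Matrix.det_transpose]
  congr 1
  ext j a
  rw [Matrix.transpose_apply, Matrix.of_apply, LinearMap.toMatrix'_apply]
  unfold pd
  rw [fderiv_apply hf j]
  simp

theorem exists_extension (Φ : (J → ℝ) → (J → ℝ)) (V : Set (J → ℝ)) (hV : IsOpen V) (z₀ : J → ℝ)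
    (hz₀ : z₀ ∈ V) (hΦ : ContDiffOn ℝ ∞ Φ V)
    (hdet : (Matrix.of fun j a => pd j (fun z => Φ z a) z₀).det ≠ 0) :
    ∃ φ : (J → ℝ) → (J → ℝ), ContDiff ℝ ∞ φ ∧
      (∀ z, (Matrix.of fun j a => pd j (fun z => φ z a) z).det ≠ 0) ∧
      (∀ᶠ z in 𝓝 z₀, φ z = Φ z) ∧
      ∃ (R : ℝ) (N : Matrix J J ℝ) (c : J → ℝ), ∀ z : J → ℝ, R < ‖z‖ →
        ∀ a, φ z a = ∑ b, N a b * z b + c a := by
  have hdiff : ∀ y ∈ V, DifferentiableAt ℝ Φ y := fun y hy =>
    (hΦ.contDiffAt (hV.mem_nhds hy)).differentiableAt (by simp)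
  have hcd : ContinuousOn (fderiv ℝ Φ) V := hΦ.continuousOn_fderiv_of_isOpen hV (by simp)
  set A : (J → ℝ) →L[ℝ] (J → ℝ) := fderiv ℝ Φ z₀ with hA
  rw [cut_det Φ z₀ (hdiff z₀ hz₀)] at hdet
  -- invertible operators near `A`
  have hopen : IsOpen {B : (J → ℝ) →L[ℝ] (J → ℝ) | B.det ≠ 0} :=
    isOpen_compl_singleton.preimage ContinuousLinearMap.continuous_det
  obtain ⟨ρ, hρ, hball⟩ := Metric.isOpen_iff.1 hopen A hdet
  -- the bump function
  let χ : ContDiffBump (0 : J → ℝ) := ⟨1, 2, one_pos, one_lt_two⟩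
  have hχs : ContDiff ℝ ∞ χ := χ.contDiff
  obtain ⟨C, hC⟩ : ∃ C, ∀ x, ‖fderiv ℝ χ x‖ ≤ C :=
    (χ.hasCompactSupport.fderiv (𝕜 := ℝ)).exists_bound_of_continuous
      (hχs.continuous_fderiv (by simp))
  have hC0 : 0 ≤ C := (norm_nonneg _).trans (hC 0)
  set η : ℝ := ρ / (2 * (2 * C + 1)) with hη
  have hη0 : 0 < η := by positivity
  have hηρ : (2 * C + 1) * η < ρ := by
    have h1 : (2 * C + 1) * η = ρ / 2 := by
      rw [hη]; field_simp
    rw [h1]; linarith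
  -- the radius
  obtain ⟨δ, hδ, hδV⟩ : ∃ δ > 0, ∀ z ∈ Metric.ball z₀ δ, z ∈ V ∧ ‖fderiv ℝ Φ z - A‖ ≤ η := by
    have h1 : ∀ᶠ z in 𝓝 z₀, ‖fderiv ℝ Φ z - A‖ < η := by
      have h2 : ContinuousAt (fun z => ‖fderiv ℝ Φ z - A‖) z₀ :=
        ((hcd.continuousAt (hV.mem_nhds hz₀)).sub continuousAt_const).norm
      apply h2.eventually_lt continuousAt_const
      simp [hA, hη0]
    obtain ⟨δ, hδ, h3⟩ := Metric.eventually_nhds_iff_ball.1 ((hV.eventually_mem hz₀).and h1)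
    exact ⟨δ, hδ, fun z hz => ⟨(h3 z hz).1, (h3 z hz).2.le⟩⟩
  set lin : (J → ℝ) → (J → ℝ) := fun z => Φ z₀ + A (z - z₀) with hlin
  have hlins : ContDiff ℝ ∞ lin := by
    rw [hlin]; fun_prop
  have hlinD : ∀ z, HasFDerivAt lin A z := by
    intro z
    have h1 : HasFDerivAt (fun z => A (z - z₀)) (A.comp (ContinuousLinearMap.id ℝ (J → ℝ))) z :=
      A.hasFDerivAt.comp z ((hasFDerivAt_id z).sub_const z₀)
    rw [ContinuousLinearMap.comp_id] at h1
    exact h1.const_add (Φ z₀)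
  set h : (J → ℝ) → (J → ℝ) := fun z => Φ z - lin z with hh
  have hhD : ∀ z ∈ V, HasFDerivAt h (fderiv ℝ Φ z - A) z := fun z hz =>
    (hdiff z hz).hasFDerivAt.sub (hlinD z)
  have hh0 : h z₀ = 0 := by simp [hh, hlin]
  have hhb : ∀ z ∈ Metric.ball z₀ δ, ‖h z‖ ≤ η * ‖z - z₀‖ := by
    intro z hz
    have h1 := Convex.norm_image_sub_le_of_norm_hasFDerivWithin_le
      (f := h) (f' := fun z => fderiv ℝ Φ z - A) (C := η) (s := Metric.ball z₀ δ)
      (fun x hx => (hhD x (hδV x hx).1).hasFDerivWithinAt) (fun x hx => (hδV x hx).2)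
      (convex_ball z₀ δ) (Metric.mem_ball_self hδ) hz
    rwa [hh0, sub_zero] at h1
  set ε : ℝ := δ / 4 with hε
  have hε0 : 0 < ε := by positivity
  have h2ε : 2 * ε < δ := by rw [hε]; linarith
  set X : (J → ℝ) → ℝ := fun z => χ (ε⁻¹ • (z - z₀)) with hX
  have hXs : ContDiff ℝ ∞ X := by
    rw [hX]
    exact hχs.comp (by fun_prop)
  have hXD : ∀ z, ‖fderiv ℝ X z‖ ≤ C * ε⁻¹ := by
    intro z
    have h1 : HasFDerivAt (fun z : J → ℝ => ε⁻¹ • (z - z₀))
        (ε⁻¹ • ContinuousLinearMap.id ℝ (J → ℝ)) z :=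
      ((hasFDerivAt_id z).sub_const z₀).const_smul ε⁻¹
    have h2 : HasFDerivAt χ (fderiv ℝ χ (ε⁻¹ • (z - z₀))) (ε⁻¹ • (z - z₀)) :=
      (hχs.differentiable (by simp)).differentiableAt.hasFDerivAt
    have h3' : HasFDerivAt ((χ : (J → ℝ) → ℝ) ∘ fun z : J → ℝ => ε⁻¹ • (z - z₀))
        ((fderiv ℝ χ (ε⁻¹ • (z - z₀))).comp (ε⁻¹ • ContinuousLinearMap.id ℝ (J → ℝ))) z :=
      HasFDerivAt.comp (g := (χ : (J → ℝ) → ℝ)) (f := fun z : J → ℝ => ε⁻¹ • (z - z₀)) z h2 h1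
    have h3 : HasFDerivAt X ((fderiv ℝ χ (ε⁻¹ • (z - z₀))).comp
        (ε⁻¹ • ContinuousLinearMap.id ℝ (J → ℝ))) z := h3'
    rw [h3.fderiv, ContinuousLinearMap.comp_smul, ContinuousLinearMap.comp_id, norm_smul,
      Real.norm_of_nonneg (inv_nonneg.2 hε0.le), mul_comm]
    exact mul_le_mul_of_nonneg_right (hC _) (inv_nonneg.2 hε0.le)
  have hX1 : ∀ z, |X z| ≤ 1 := fun z => by
    rw [abs_of_nonneg χ.nonneg]
    exact χ.le_one
  have hXzero : ∀ z, 2 * ε ≤ ‖z - z₀‖ → X z = 0 := by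
    intro z hz
    apply χ.zero_of_le_dist
    change (2 : ℝ) ≤ _
    rw [dist_zero_right, norm_smul, Real.norm_of_nonneg (inv_nonneg.2 hε0.le)]
    rw [inv_mul_eq_div, le_div_iff₀ hε0]
    exact hz
  have hXone : ∀ z, ‖z - z₀‖ ≤ ε → X z = 1 := by
    intro z hz
    apply χ.one_of_mem_closedBall
    change _ ∈ Metric.closedBall (0 : J → ℝ) 1
    rw [mem_closedBall_zero_iff, norm_smul, Real.norm_of_nonneg (inv_nonneg.2 hε0.le)]
    rw [inv_mul_eq_div, div_le_one hε0]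
    exact hz
  set g : (J → ℝ) → (J → ℝ) := fun z => X z • h z with hg
  have hgfar : ∀ z, 2 * ε < ‖z - z₀‖ → g =ᶠ[𝓝 z] fun _ => 0 := by
    intro z hz
    have h1 : ContinuousAt (fun y : J → ℝ => ‖y - z₀‖) z := by fun_prop
    filter_upwards [continuousAt_const.eventually_lt h1 hz] with y hy
    rw [hg]
    simp only [hXzero y (le_of_lt hy), zero_smul]
  have hgs : ContDiff ℝ ∞ g := by
    rw [contDiff_iff_contDiffAt]
    intro z
    by_cases hz : 2 * ε < ‖z - z₀‖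
    · exact contDiffAt_const.congr_of_eventuallyEq (hgfar z hz)
    · have hzb : z ∈ Metric.ball z₀ δ := by
        rw [mem_ball_iff_norm]
        exact lt_of_le_of_lt (not_lt.1 hz) h2ε
      have hzV := (hδV z hzb).1
      exact hXs.contDiffAt.smul ((hΦ.contDiffAt (hV.mem_nhds hzV)).sub hlins.contDiffAt)
  have hgD : ∀ z, ‖fderiv ℝ g z‖ ≤ (2 * C + 1) * η := by
    intro z
    by_cases hz : 2 * ε < ‖z - z₀‖
    · rw [(hgfar z hz).fderiv_eq]
      simp only [fderiv_fun_const, Pi.zero_apply, norm_zero]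
      positivity
    · have hz' := not_lt.1 hz
      have hzb : z ∈ Metric.ball z₀ δ := by
        rw [mem_ball_iff_norm]
        exact lt_of_le_of_lt hz' h2ε
      obtain ⟨hzV, hzη⟩ := hδV z hzb
      have h1 : HasFDerivAt g (X z • (fderiv ℝ Φ z - A) + (fderiv ℝ X z).smulRight (h z)) z :=
        ((hXs.differentiable (by simp)).differentiableAt.hasFDerivAt).smul (hhD z hzV)
      rw [h1.fderiv]
      refine (norm_add_le _ _).trans ?_
      rw [norm_smul, ContinuousLinearMap.norm_smulRight_apply, Real.norm_eq_abs]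
      have h2 : |X z| * ‖fderiv ℝ Φ z - A‖ ≤ 1 * η :=
        mul_le_mul (hX1 z) hzη (norm_nonneg _) zero_le_one
      have h3 : ‖h z‖ ≤ η * (2 * ε) :=
        (hhb z hzb).trans (mul_le_mul_of_nonneg_left hz' hη0.le)
      have h4 : ‖fderiv ℝ X z‖ * ‖h z‖ ≤ (C * ε⁻¹) * (η * (2 * ε)) :=
        mul_le_mul (hXD z) h3 (norm_nonneg _) (by positivity)
      have h5 : (C * ε⁻¹) * (η * (2 * ε)) = 2 * C * η := by
        field_simp
      rw [h5] at h4
      linarith
  refine ⟨fun z => lin z + g z, hlins.add hgs, ?_, ?_, ‖z₀‖ + 2 * ε,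
    LinearMap.toMatrix' (A : (J → ℝ) →ₗ[ℝ] (J → ℝ)), Φ z₀ - A z₀, ?_⟩
  · intro z
    have hgd : HasFDerivAt g (fderiv ℝ g z) z :=
      (hgs.differentiable (by simp)).differentiableAt.hasFDerivAt
    have h1 : HasFDerivAt (fun z => lin z + g z) (A + fderiv ℝ g z) z := (hlinD z).add hgd
    rw [cut_det (fun z => lin z + g z) z h1.differentiableAt, h1.fderiv]
    apply hball
    rw [mem_ball_iff_norm, add_sub_cancel_left]
    exact lt_of_le_of_lt (hgD z) hηρ
  · filter_upwards [Metric.ball_mem_nhds z₀ hε0] with z hz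
    rw [mem_ball_iff_norm] at hz
    simp only [hg, hXone z hz.le, one_smul, hh]
    abel
  · intro z hz a
    have h1 : 2 * ε < ‖z - z₀‖ := by
      have := norm_sub_norm_le z z₀
      linarith
    have h2 : g z = 0 := by
      simp only [hg, hXzero z h1.le, zero_smul]
    simp only [h2, add_zero, hlin, map_sub]
    have h3 : (LinearMap.toMatrix' (A : (J → ℝ) →ₗ[ℝ] (J → ℝ))).mulVec z = A z := by
      rw [LinearMap.toMatrix'_mulVec]
      rfl
    have h4 := congrFun h3 a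
    rw [Matrix.mulVec, dotProduct] at h4
    rw [h4]
    simp only [Pi.add_apply, Pi.sub_apply]
    ring

end E214
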