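import Mathlib

/-!
# Module R/NF: normal form of skew symmetric real matrices

Proof.  Think of a skew bilinear form `ω(u, v) = ∑ c_ij u_i v_j` on `ℝ^r` (rows of `g` = vectors
`g_1, ..., g_r`, `(g c gᵀ)_ij = ω(g_i, g_j)`).  Claim, by strong induction on `dim U` for subspaces `U`
(or on the size of an index set): every subspace `U` has a basis indexed by `Fin m` together with
`s : Fin m → ℝ`, `τ : Fin m → Fin m` as in the statement.  If `ω` vanishes on `U` take any basis,
`s = 0`, `τ = id`.  Otherwise there are `u, v ∈ U` with `ω(u, v) = 1`; let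
`U' = {w ∈ U | ω(u, w) = 0 = ω(v, w)}`.  Every `w ∈ U` is uniquely
`w = -ω(v, w)... u + ... v + w'` (`w' = w - ω(w, v) u + ω(w, u) v`, check
`ω(w', u) = ω(w, u) + ω(w, u) ω(v, u) = 0`, `ω(w', v) = ω(w, v) - ω(w, v) ω(u, v) = 0`), so
`U = ⟨u, v⟩ ⊕ U'`, and by induction `U'` has such a basis; add `u, v` with `s_u = 1`, `s_v = -1`,
`τ u = v`, `τ v = u`.
It may be convenient to prove the statement first for an arbitrary finite index type by induction on
its cardinality, in matrix form: if `c ≠ 0` there are `i ≠ j` with `c_ij ≠ 0`; rescale so that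
`c_ij = 1` and clear the other entries of the rows and columns `i, j` by congruences.
-/

set_option autoImplicit false

namespace E214

private theorem nF_aux {V : Type} [AddCommGroup V] [Module ℝ V] [FiniteDimensional ℝ V]
    (ω : V →ₗ[ℝ] V →ₗ[ℝ] ℝ) (hω : ∀ u v, ω u v = - ω v u) (m : ℕ) :
    ∀ W : Submodule ℝ V, Module.finrank ℝ W = m →
      ∃ (ι : Type) (_ : Fintype ι) (_ : DecidableEq ι) (b : ι → V) (s : ι → ℝ) (τ : ι → ι),
        LinearIndependent ℝ b ∧ Submodule.span ℝ (Set.range b) = W ∧ (∀ i, τ (τ i) = i) ∧
        (∀ i, s (τ i) = - s i) ∧ (∀ i, s i = 0 ∨ s i = 1 ∨ s i = -1) ∧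
        ∀ i j, ω (b i) (b j) = if j = τ i then s i else 0 := by
  induction m using Nat.strong_induction_on with
  | _ m ih =>
    intro W hW
    by_cases h0 : ∀ u ∈ W, ∀ v ∈ W, ω u v = 0
    · refine ⟨Fin (Module.finrank ℝ W), inferInstance, inferInstance,
        fun i => (Module.finBasis ℝ W i : V), fun _ => 0, id, ?_, ?_, fun _ => rfl,
        fun _ => by simp, fun _ => Or.inl rfl, ?_⟩
      · exact (Module.finBasis ℝ W).linearIndependent.map' W.subtype (Submodule.ker_subtype W)
      · have h1 : Set.range (fun i => (Module.finBasis ℝ W i : V))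
            = W.subtype '' Set.range (Module.finBasis ℝ W) := by
          rw [← Set.range_comp]
          rfl
        rw [h1, ← Submodule.map_span, (Module.finBasis ℝ W).span_eq, Submodule.map_top,
          Submodule.range_subtype]
      · intro i j
        rw [h0 _ (Module.finBasis ℝ W i).2 _ (Module.finBasis ℝ W j).2]
        simp
    · push Not at h0
      obtain ⟨u₀, hu₀, v, hv, huv₀⟩ := h0
      obtain ⟨u, hu, huv⟩ : ∃ u ∈ W, ω u v = 1 := by
        refine ⟨(ω u₀ v)⁻¹ • u₀, W.smul_mem _ hu₀, ?_⟩
        rw [map_smul, LinearMap.smul_apply, smul_eq_mul, inv_mul_cancel₀ huv₀]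
      have hvu : ω v u = -1 := by rw [hω, huv]
      have huu : ω u u = 0 := by have := hω u u; linarith
      have hvv : ω v v = 0 := by have := hω v v; linarith
      set W' : Submodule ℝ V := W ⊓ LinearMap.ker (ω u) ⊓ LinearMap.ker (ω v) with hW'
      have hmem : ∀ w, w ∈ W' ↔ w ∈ W ∧ ω u w = 0 ∧ ω v w = 0 := by
        intro w
        rw [hW', Submodule.mem_inf, Submodule.mem_inf, LinearMap.mem_ker, LinearMap.mem_ker,
          and_assoc]
      have hlt : W' < W := by
        refine lt_of_le_of_ne (fun w hw => ((hmem w).1 hw).1) ?_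
        intro h
        have h1 : v ∈ W' := by rw [h]; exact hv
        have h2 := ((hmem v).1 h1).2.1
        rw [huv] at h2
        exact one_ne_zero h2
      have hfr : Module.finrank ℝ W' < m := by
        rw [← hW]
        exact Submodule.finrank_lt_finrank_of_lt hlt
      obtain ⟨ι, hι, hιd, b, s, τ, hb, hspan, hτ, hsτ, hs, hform⟩ := ih _ hfr W' rfl
      have hbW : ∀ i, b i ∈ W' := by
        intro i
        rw [← hspan]
        exact Submodule.subset_span ⟨i, rfl⟩
      have hbu : ∀ i, ω u (b i) = 0 := fun i => ((hmem _).1 (hbW i)).2.1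
      have hbv : ∀ i, ω v (b i) = 0 := fun i => ((hmem _).1 (hbW i)).2.2
      have hbu' : ∀ i, ω (b i) u = 0 := fun i => by rw [hω, hbu, neg_zero]
      have hbv' : ∀ i, ω (b i) v = 0 := fun i => by rw [hω, hbv, neg_zero]
      have hrange : Set.range (![u, v] : Fin 2 → V) = {u, v} := by
        rw [Matrix.range_cons_cons_empty]
      have hrange2 : Set.range (Sum.elim (![u, v] : Fin 2 → V) b) = {u, v} ∪ Set.range b := by
        rw [Set.Sum.elim_range, hrange]
      refine ⟨Fin 2 ⊕ ι, inferInstance, inferInstance, Sum.elim ![u, v] b, Sum.elim ![1, -1] s,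
        Sum.map ![1, 0] τ, ?_, ?_, ?_, ?_, ?_, ?_⟩
      · rw [linearIndependent_sum]
        refine ⟨?_, ?_, ?_⟩
        · rw [Sum.elim_comp_inl, LinearIndependent.pair_iff]
          intro p q hpq
          have h1 := congrArg (ω u) hpq
          have h2 := congrArg (ω v) hpq
          simp only [map_add, map_smul, huu, huv, hvu, hvv, smul_eq_mul, map_zero] at h1 h2
          constructor <;> linarith
        · rw [Sum.elim_comp_inr]
          exact hb
        · rw [Sum.elim_comp_inl, Sum.elim_comp_inr, hspan, hrange, Submodule.disjoint_def]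
          intro x hx hx'
          obtain ⟨p, q, rfl⟩ := Submodule.mem_span_pair.1 hx
          have h1 := ((hmem _).1 hx').2.1
          have h2 := ((hmem _).1 hx').2.2
          simp only [map_add, map_smul, huu, huv, hvu, hvv, smul_eq_mul] at h1 h2
          have hp : p = 0 := by linarith
          have hq : q = 0 := by linarith
          rw [hp, hq, zero_smul, zero_smul, add_zero]
      · rw [hrange2, Submodule.span_union, hspan]
        apply le_antisymm
        · refine sup_le ?_ hlt.le
          rw [Submodule.span_le]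
          rintro x (rfl | rfl)
          · exact hu
          · exact hv
        · intro w hw
          have h1 : w = (ω w v • u - ω w u • v) + (w - ω w v • u + ω w u • v) := by abel
          rw [h1]
          refine Submodule.add_mem_sup ?_ ?_
          · refine Submodule.sub_mem _ (Submodule.smul_mem _ _ (Submodule.subset_span ?_))
              (Submodule.smul_mem _ _ (Submodule.subset_span ?_))
            · exact Or.inl rfl
            · exact Or.inr rfl
          · rw [hmem]
            refine ⟨W.add_mem (W.sub_mem hw (W.smul_mem _ hu)) (W.smul_mem _ hv), ?_, ?_⟩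
            · simp only [map_add, map_sub, map_smul, huu, huv, smul_eq_mul]
              rw [hω u w]; ring
            · simp only [map_add, map_sub, map_smul, hvu, hvv, smul_eq_mul]
              rw [hω v w]; ring
      · rintro (i | i)
        · fin_cases i <;> rfl
        · simp [hτ]
      · rintro (i | i)
        · fin_cases i <;> simp
        · simp [hsτ]
      · rintro (i | i)
        · fin_cases i <;> simp
        · simpa using hs i
      · rintro (i | i) (j | j)
        · fin_cases i <;> fin_cases j <;> simp [huu, huv, hvu, hvv]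
        · fin_cases i <;> simp [hbu, hbv]
        · fin_cases j <;> simp [hbu', hbv']
        · simpa using hform i j

theorem exists_normal_form (r : ℕ) (c : Matrix (Fin r) (Fin r) ℝ) (hc : ∀ i j, c i j = - c j i) :
    ∃ (g : Matrix (Fin r) (Fin r) ℝ) (s : Fin r → ℝ) (τ : Fin r → Fin r),
      IsUnit g.det ∧ (∀ i, τ (τ i) = i) ∧ (∀ i, s (τ i) = - s i) ∧
      (∀ i, s i = 0 ∨ s i = 1 ∨ s i = -1) ∧
      ∀ i j, ∑ k, ∑ l, g i k * g j l * c k l = if j = τ i then s i else 0 := by
  let ω : (Fin r → ℝ) →ₗ[ℝ] (Fin r → ℝ) →ₗ[ℝ] ℝ :=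
    LinearMap.mk₂ ℝ (fun u v => ∑ k, ∑ l, u k * v l * c k l)
      (fun u u' v => by
        simp only [Pi.add_apply, add_mul, Finset.sum_add_distrib])
      (fun a u v => by
        simp only [Pi.smul_apply, smul_eq_mul, Finset.mul_sum, mul_assoc])
      (fun u v v' => by
        simp only [Pi.add_apply, mul_add, add_mul, Finset.sum_add_distrib])
      (fun a u v => by
        simp only [Pi.smul_apply, smul_eq_mul, Finset.mul_sum]
        refine Finset.sum_congr rfl fun k _ => Finset.sum_congr rfl fun l _ => by ring)
  have hωa : ∀ u v, ω u v = ∑ k, ∑ l, u k * v l * c k l := fun u v => rfl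
  have hω : ∀ u v, ω u v = - ω v u := by
    intro u v
    rw [hωa, hωa, Finset.sum_comm, ← Finset.sum_neg_distrib]
    refine Finset.sum_congr rfl fun k _ => ?_
    rw [← Finset.sum_neg_distrib]
    refine Finset.sum_congr rfl fun l _ => ?_
    rw [hc l k]; ring
  obtain ⟨ι, hι, hιd, b, s, τ, hb, hspan, hτ, hsτ, hs, hform⟩ := nF_aux ω hω _ ⊤ rfl
  have hcard : Fintype.card ι = r := by
    have h1 := finrank_span_eq_card hb
    rw [hspan, finrank_top] at h1
    rw [← h1]
    simp
  let e : ι ≃ Fin r := Fintype.equivFinOfCardEq hcard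
  refine ⟨Matrix.of fun i k => b (e.symm i) k, fun i => s (e.symm i),
    fun i => e (τ (e.symm i)), ?_, ?_, ?_, ?_, ?_⟩
  · rw [← Matrix.isUnit_iff_isUnit_det, ← Matrix.linearIndependent_rows_iff_isUnit]
    exact hb.comp e.symm e.symm.injective
  · intro i
    simp [hτ]
  · intro i
    simp [hsτ]
  · intro i
    exact hs _
  · intro i j
    have h1 := hform (e.symm i) (e.symm j)
    rw [hωa] at h1
    simp only [Matrix.of_apply]
    rw [h1]
    by_cases hj : e.symm j = τ (e.symm i)
    · rw [if_pos hj, if_pos (by rw [← hj]; simp)]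
    · rw [if_neg hj, if_neg]
      intro h
      apply hj
      rw [h]
      simp

end E214
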