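import Pool.Agent.Work.MP_e214ac_gt.RDefs

/-!
# Module R/AffHoms: the affine homomorphisms between algebras of smooth functions

Proof.  In all cases check the conditions of `IsAffHom` pointwise.
* `model_std`: the homomorphism is `f ↦ f ∘ θ`.
  - `ρ(φ_a) = φ_a ∘ θ = ∑ N_ab z_b + c_a` (hypothesis `hN`).
  - `∂_b (f ∘ θ) (z) = ∑_j (∂_b θ_j)(z) (E_j f)(θ z)` (`Sm.dir_comp`; `fderiv θ z e_b =
    ∑_j (∂_b θ_j)(z) e_j`).  Differentiating `hN` gives `N_ab = ∑_i (∂_b θ_i)(z) (E_i φ_a)(θ z)`, and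
    `∑_a N_ab (∂_a^model f)(θ z) = ∑_a ∑_i (∂_b θ_i) (E_i φ_a)(θ z) ∑_j K_aj(θ z) (E_j f)(θ z)`; by
    `inv_swap` `∑_a (E_i φ_a) K_aj = δ_ij`; so both sides agree.
  - `ρ(P_ab) = ∑_i s_i (E_i φ_a)(θ z) (E_{τ i} φ_b)(θ z)` and
    `∑ N_ac N_bd P_cd(z) = ∑_{ij} (E_i φ_a)(θ z) (E_j φ_b)(θ z) ∑_{cd} P_cd ∂_c θ_i ∂_d θ_j`, use `hPθ`.
* `model_restr`: `θ = id`, `N = 1`, `c = 0`, all functions restrict.
* `std_std`: `κ` is affine on `W₂`: `∂_b (f ∘ κ) = ∑_a N_ab (∂_a f) ∘ κ`.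
-/

set_option autoImplicit false

open scoped ContDiff Topology

namespace E214

open TopologicalSpace

variable {J : Type} [Fintype J] [DecidableEq J]

private theorem ah_sum {α : Type} {W : Opens (J → ℝ)} (t : Finset α) (f : α → Sm W) (z : W) :
    (∑ a ∈ t, f a : Sm W).1 z = ∑ a ∈ t, (f a).1 z := by
  rw [AddSubmonoidClass.coe_finsetSum, Finset.sum_apply]

private theorem ah_ite {W : Opens (J → ℝ)} (p : Prop) [Decidable p] (z : W) :
    (if p then (1 : Sm W) else 0).1 z = if p then 1 else 0 := by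
  split_ifs <;> rfl

private theorem ah_comp {W : Opens (J → ℝ)} {θ : (J → ℝ) → (J → ℝ)} (hθ : ContDiffOn ℝ ∞ θ W)
    (z : W) (b i : J) : fderiv ℝ θ z (Pi.single b 1) i = pd b (fun y => θ y i) z := by
  have h1 : DifferentiableAt ℝ θ z :=
    (hθ.contDiffAt (W.isOpen.mem_nhds z.2)).differentiableAt (by simp)
  have h2 := hasFDerivAt_pi'.1 h1.hasFDerivAt i
  change _ = fderiv ℝ (fun y => θ y i) z (Pi.single b 1)
  rw [h2.fderiv]
  rfl

private theorem ah_comm4 (f : J → J → J → J → ℝ) :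
    ∑ c, ∑ d, ∑ i, ∑ j, f c d i j = ∑ i, ∑ j, ∑ c, ∑ d, f c d i j := by
  calc ∑ c, ∑ d, ∑ i, ∑ j, f c d i j = ∑ c, ∑ i, ∑ d, ∑ j, f c d i j :=
        Finset.sum_congr rfl fun c _ => Finset.sum_comm
    _ = ∑ i, ∑ c, ∑ d, ∑ j, f c d i j := Finset.sum_comm
    _ = ∑ i, ∑ c, ∑ j, ∑ d, f c d i j :=
        Finset.sum_congr rfl fun i _ => Finset.sum_congr rfl fun c _ => Finset.sum_comm
    _ = ∑ i, ∑ j, ∑ c, ∑ d, f c d i j := Finset.sum_congr rfl fun i _ => Finset.sum_comm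

/-- chain rule in coordinates -/
private theorem ah_chain {W₀ W : Opens (J → ℝ)} (θ : (J → ℝ) → (J → ℝ)) (hθ : ContDiffOn ℝ ∞ θ W)
    (hm : ∀ z ∈ W, θ z ∈ W₀) (f : Sm W₀) (b : J) (z : W) :
    (smd b (Sm.comp θ hθ hm f)).1 z
      = ∑ j, pd b (fun y => θ y j) z * (smd j f).1 ⟨θ z, hm z z.2⟩ := by
  have h1 : (smd b (Sm.comp θ hθ hm f)).1 z
      = fderiv ℝ (ext0 W₀ f.1) (θ z) (fderiv ℝ θ z (Pi.single b 1)) := Sm.dir_comp _ _ _ _ _ _
  have h2 : fderiv ℝ θ z (Pi.single b 1) = ∑ j, fderiv ℝ θ z (Pi.single b 1) j •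
      (Pi.single j (1 : ℝ) : J → ℝ) := by
    funext c
    rw [Finset.sum_apply]
    simp [Pi.single_apply]
  rw [h1, h2, map_sum]
  refine Finset.sum_congr rfl fun j _ => ?_
  rw [map_smul, smul_eq_mul, ah_comp hθ]
  rfl

theorem model_std (W₀ W : Opens (J → ℝ)) (s : J → ℝ) (τ : J → J) (hτ : ∀ i, τ (τ i) = i)
    (hsτ : ∀ i, s (τ i) = - s i) (φ : J → Sm W₀) (K : J → J → Sm W₀)
    (hK : ∀ a b, ∑ j, K a j * smd j (φ b) = if a = b then 1 else 0)
    (P : J → J → Sm W) (hP : ∀ a b, P a b = - P b a)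
    (θ : (J → ℝ) → (J → ℝ)) (hθ : ContDiffOn ℝ ∞ θ W) (hm : ∀ z ∈ W, θ z ∈ W₀)
    (N : Matrix J J ℝ) (c : J → ℝ) (hNdet : IsUnit N.det)
    (hN : ∀ z : W, ∀ a, (φ a).1 ⟨θ z, hm z z.2⟩ = ∑ b, N a b * (z : J → ℝ) b + c a)
    (hPθ : ∀ z : W, ∀ i j, ∑ a, ∑ b, (P a b).1 z * pd a (fun y => θ y i) z *
      pd b (fun y => θ y j) z = if j = τ i then s i else 0) :
    IsAffHom (modelAff W₀ s τ hτ hsτ φ K hK) (stdAff W P hP) (Sm.comp θ hθ hm) := by
  have hNA : ∀ (z : W) (a b : J), N a b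
      = ∑ i, pd b (fun y => θ y i) z * (smd i (φ a)).1 ⟨θ z, hm z z.2⟩ := by
    intro z a b
    rw [← ah_chain θ hθ hm (φ a) b z]
    have h1 : Sm.comp θ hθ hm (φ a) = ∑ b, N a b • smx b + algebraMap ℝ (Sm W) (c a) := by
      apply Sm.ext
      intro z
      change (φ a).1 ⟨θ z, hm z z.2⟩ = (∑ b, N a b • smx b : Sm W).1 z + c a
      rw [hN, ah_sum]
      rfl
    rw [h1, map_add, Derivation.map_algebraMap, add_zero, map_sum, ah_sum]
    have h2 : ∀ d, (smd b (N a d • smx d : Sm W)).1 z = N a d * if b = d then 1 else 0 := by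
      intro d
      rw [Derivation.map_smul, smd_smx]
      change N a d • (if b = d then (1 : Sm W) else 0).1 z = _
      rw [ah_ite, smul_eq_mul]
    simp only [h2]
    simp
  have hAK : ∀ (z : W) (i j : J), ∑ a, (smd i (φ a)).1 ⟨θ z, hm z z.2⟩
      * (K a j).1 ⟨θ z, hm z z.2⟩ = if i = j then 1 else 0 := by
    intro z i j
    have h1 := congrArg (fun f : Sm W₀ => f.1 ⟨θ z, hm z z.2⟩)
      (inv_swap (fun j => smd (W := W₀) j) φ K hK i j)
    rw [← ah_ite (W := W₀) (i = j) ⟨θ z, hm z z.2⟩, ← show _ = (if i = j then (1 : Sm W₀) else 0).1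
      ⟨θ z, hm z z.2⟩ from h1]
    exact (ah_sum _ (fun b => smd i (φ b) * K b j) _).symm
  refine ⟨N, c, hNdet, ?_, ?_, ?_⟩
  · intro a
    apply Sm.ext
    intro z
    change (φ a).1 ⟨θ z, hm z z.2⟩ = (∑ b, N a b • smx b : Sm W).1 z + c a
    rw [hN, ah_sum]
    rfl
  · intro b f
    apply Sm.ext
    intro z
    change (smd b (Sm.comp θ hθ hm f)).1 z = _
    rw [ah_chain, ah_sum]
    have h1 : ∀ a, (N a b • Sm.comp θ hθ hm ((modelAff W₀ s τ hτ hsτ φ K hK).d a f) : Sm W).1 z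
        = N a b * ∑ j, (K a j).1 ⟨θ z, hm z z.2⟩ * (smd j f).1 ⟨θ z, hm z z.2⟩ := by
      intro a
      have h2 : (modelAff W₀ s τ hτ hsτ φ K hK).d a f = ∑ j, K a j * smd j f :=
        der_comb_apply (K a) (fun j => smd j) f
      rw [h2]
      change N a b • (∑ j, K a j * smd j f : Sm W₀).1 ⟨θ z, hm z z.2⟩ = _
      rw [ah_sum, smul_eq_mul]
      rfl
    simp only [h1]
    have h3 : ∀ j, ∑ a, N a b * (K a j).1 ⟨θ z, hm z z.2⟩ = pd b (fun y => θ y j) z := by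
      intro j
      simp only [hNA z _ b, Finset.sum_mul]
      rw [Finset.sum_comm]
      have h4 : ∀ i, ∑ a, pd b (fun y => θ y i) z * (smd i (φ a)).1 ⟨θ z, hm z z.2⟩
          * (K a j).1 ⟨θ z, hm z z.2⟩ = pd b (fun y => θ y i) z * if i = j then 1 else 0 := by
        intro i
        rw [← hAK z i j, Finset.mul_sum]
        exact Finset.sum_congr rfl fun a _ => by ring
      simp [h4]
    simp only [← h3, Finset.mul_sum, Finset.sum_mul]
    rw [Finset.sum_comm]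
    exact Finset.sum_congr rfl fun a _ => Finset.sum_congr rfl fun j _ => by ring
  · intro a b
    apply Sm.ext
    intro z
    have h1 : (Sm.comp θ hθ hm ((modelAff W₀ s τ hτ hsτ φ K hK).P a b)).1 z
        = ∑ i, s i * ((smd i (φ a)).1 ⟨θ z, hm z z.2⟩ * (smd (τ i) (φ b)).1 ⟨θ z, hm z z.2⟩) := by
      change (∑ i, s i • (smd i (φ a) * smd (τ i) (φ b)) : Sm W₀).1 ⟨θ z, hm z z.2⟩ = _
      rw [ah_sum]
      rfl
    rw [h1, ah_sum]
    have h2 : ∀ i, s i * ((smd i (φ a)).1 ⟨θ z, hm z z.2⟩ * (smd (τ i) (φ b)).1 ⟨θ z, hm z z.2⟩)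
        = ∑ j, (smd i (φ a)).1 ⟨θ z, hm z z.2⟩ * (smd j (φ b)).1 ⟨θ z, hm z z.2⟩
          * ∑ c, ∑ d, (P c d).1 z * pd c (fun y => θ y i) z * pd d (fun y => θ y j) z := by
      intro i
      simp only [hPθ z]
      simp
      ring
    have h3 : ∀ c, (∑ d, (N a c * N b d) • (stdAff W P hP).P c d : Sm W).1 z
        = ∑ d, N a c * N b d * (P c d).1 z := by
      intro c
      rw [ah_sum]
      rfl
    rw [Finset.sum_congr rfl fun c _ => h3 c, Finset.sum_congr rfl fun i _ => h2 i]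
    have h4 : ∀ c d, N a c * N b d * (P c d).1 z = ∑ i, ∑ j,
        (smd i (φ a)).1 ⟨θ z, hm z z.2⟩ * (smd j (φ b)).1 ⟨θ z, hm z z.2⟩
          * ((P c d).1 z * pd c (fun y => θ y i) z * pd d (fun y => θ y j) z) := by
      intro c d
      rw [hNA z a c, hNA z b d, Finset.sum_mul_sum, Finset.sum_mul]
      refine Finset.sum_congr rfl fun i _ => ?_
      rw [Finset.sum_mul]
      exact Finset.sum_congr rfl fun j _ => by ring
    rw [Finset.sum_congr rfl fun c _ => Finset.sum_congr rfl fun d _ => h4 c d, ah_comm4]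
    refine Finset.sum_congr rfl fun i _ => Finset.sum_congr rfl fun j _ => ?_
    rw [Finset.mul_sum]
    refine Finset.sum_congr rfl fun c _ => ?_
    rw [Finset.mul_sum]

theorem model_restr (W₀ W : Opens (J → ℝ)) (hW : W ≤ W₀) (s : J → ℝ) (τ : J → J)
    (hτ : ∀ i, τ (τ i) = i)
    (hsτ : ∀ i, s (τ i) = - s i) (φ : J → Sm W₀) (K : J → J → Sm W₀)
    (hK : ∀ a b, ∑ j, K a j * smd j (φ b) = if a = b then 1 else 0)
    (φ' : J → Sm W) (K' : J → J → Sm W)
    (hK' : ∀ a b, ∑ j, K' a j * smd j (φ' b) = if a = b then 1 else 0)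
    (hφ : ∀ a, φ' a = Sm.comp id contDiffOn_id (fun z hz => hW hz) (φ a)) :
    IsAffHom (modelAff W₀ s τ hτ hsτ φ K hK) (modelAff W s τ hτ hsτ φ' K' hK')
      (Sm.comp id contDiffOn_id (fun z hz => hW hz)) := by
  have hres : ∀ (j : J) (f : Sm W₀) (z : W),
      (smd j (Sm.comp id contDiffOn_id (fun z hz => hW hz) f : Sm W)).1 z
        = (smd j f).1 ⟨z, hW z.2⟩ := by
    intro j f z
    have h1 := Sm.dir_comp (W := W₀) (W' := W) id contDiffOn_id (fun z hz => hW hz) f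
      (Pi.single j 1) z
    have h2 : fderiv ℝ (id : (J → ℝ) → (J → ℝ)) z (Pi.single j 1) = Pi.single j 1 := by
      rw [fderiv_id]; rfl
    rw [h2] at h1
    exact h1
  have hcomm : ∀ (j : J) (f : Sm W₀),
      (smd j (Sm.comp id contDiffOn_id (fun z hz => hW hz) f : Sm W))
        = Sm.comp id contDiffOn_id (fun z hz => hW hz) (smd j f) := by
    intro j f
    apply Sm.ext
    intro z
    exact hres j f z
  have hd : ∀ (b : J) (f : Sm W₀), (modelAff W s τ hτ hsτ φ' K' hK').d b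
      (Sm.comp id contDiffOn_id (fun z hz => hW hz) f)
      = Sm.comp id contDiffOn_id (fun z hz => hW hz) ((modelAff W₀ s τ hτ hsτ φ K hK).d b f) := by
    intro b f
    -- both sides satisfy `∑_a (E_j φ'_a) y_a = E_j f'`
    have h1 : ∀ j, (smd j (Sm.comp id contDiffOn_id (fun z hz => hW hz) f) : Sm W)
        = ∑ a, smd j (φ' a) * Sm.comp id contDiffOn_id (fun z hz => hW hz)
          ((modelAff W₀ s τ hτ hsτ φ K hK).d a f) := by
      intro j
      rw [hcomm, show smd j f = ∑ a, smd j (φ a) * (modelAff W₀ s τ hτ hsτ φ K hK).d a f from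
        ofDarb_expand (smFrame W₀).E (smFrame W₀).hEE s τ hτ hsτ φ K hK j f, map_sum]
      refine Finset.sum_congr rfl fun a _ => ?_
      rw [map_mul, hφ a, hcomm]
    have h2 : (modelAff W s τ hτ hsτ φ' K' hK').d b
        (Sm.comp id contDiffOn_id (fun z hz => hW hz) f)
        = ∑ j, K' b j * smd j (Sm.comp id contDiffOn_id (fun z hz => hW hz) f) :=
      der_comb_apply (K' b) (fun j => smd j) _
    rw [h2]
    simp only [h1, Finset.mul_sum]
    rw [Finset.sum_comm]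
    have h3 : ∀ a, ∑ j, K' b j * (smd j (φ' a) * Sm.comp id contDiffOn_id (fun z hz => hW hz)
        ((modelAff W₀ s τ hτ hsτ φ K hK).d a f)) = (if b = a then 1 else 0) *
          Sm.comp id contDiffOn_id (fun z hz => hW hz)
            ((modelAff W₀ s τ hτ hsτ φ K hK).d a f) := by
      intro a
      rw [← hK' b a, Finset.sum_mul]
      exact Finset.sum_congr rfl fun j _ => by ring
    simp only [h3]
    simp
  refine ⟨1, 0, by simp, ?_, ?_, ?_⟩
  · intro a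
    have h1 : ∑ b, (1 : Matrix J J ℝ) a b • (modelAff W s τ hτ hsτ φ' K' hK').x b = φ' a := by
      simp only [Matrix.one_apply, ite_smul, one_smul, zero_smul]
      simp
      rfl
    rw [h1, Pi.zero_apply, map_zero, add_zero, hφ a]
    rfl
  · intro b f
    rw [hd]
    simp [Matrix.one_apply, ite_smul]
  · intro a b
    have h1 : ∑ c, ∑ d, ((1 : Matrix J J ℝ) a c * (1 : Matrix J J ℝ) b d) •
        (modelAff W s τ hτ hsτ φ' K' hK').P c d = (modelAff W s τ hτ hsτ φ' K' hK').P a b := by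
      simp [Matrix.one_apply, ite_smul]
    rw [h1]
    change Sm.comp id contDiffOn_id (fun z hz => hW hz) (∑ i, s i • (smd i (φ a) * smd (τ i) (φ b)))
      = ∑ i, s i • (smd i (φ' a) * smd (τ i) (φ' b))
    rw [map_sum]
    refine Finset.sum_congr rfl fun i _ => ?_
    rw [map_smul, map_mul, ← hcomm, ← hcomm, hφ, hφ]

theorem std_std (W₁ W₂ : Opens (J → ℝ)) (P₁ : J → J → Sm W₁) (hP₁ : ∀ a b, P₁ a b = - P₁ b a)
    (P₂ : J → J → Sm W₂) (hP₂ : ∀ a b, P₂ a b = - P₂ b a)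
    (κ : (J → ℝ) → (J → ℝ)) (hκ : ContDiffOn ℝ ∞ κ W₂) (hm : ∀ z ∈ W₂, κ z ∈ W₁)
    (N : Matrix J J ℝ) (c : J → ℝ) (hNdet : IsUnit N.det)
    (hN : ∀ z ∈ W₂, ∀ a, κ z a = ∑ b, N a b * z b + c a)
    (hP : ∀ z : W₂, ∀ a b, (P₁ a b).1 ⟨κ z, hm z z.2⟩
      = ∑ i, ∑ j, (N a i * N b j) * (P₂ i j).1 z) :
    IsAffHom (stdAff W₁ P₁ hP₁) (stdAff W₂ P₂ hP₂) (Sm.comp κ hκ hm) := by
  refine ⟨N, c, hNdet, ?_, ?_, ?_⟩
  · intro a
    apply Sm.ext
    intro z
    change κ z a = (∑ b, N a b • smx b : Sm W₂).1 z + c a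
    rw [hN z z.2, ah_sum]
    rfl
  · intro b f
    apply Sm.ext
    intro z
    change (smd b (Sm.comp κ hκ hm f)).1 z = _
    rw [ah_chain, ah_sum]
    refine Finset.sum_congr rfl fun a _ => ?_
    have h1 : pd b (fun y => κ y a) z = N a b := by
      have h2 : fderiv ℝ (fun y => κ y a) z
          = fderiv ℝ (fun y : J → ℝ => ∑ b, N a b * y b + c a) z := by
        apply Filter.EventuallyEq.fderiv_eq
        filter_upwards [W₂.isOpen.mem_nhds z.2] with y hy using hN y hy a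
      have h3 : HasFDerivAt (fun y : J → ℝ => ∑ b, N a b * y b + c a)
          (∑ b, N a b • (ContinuousLinearMap.proj b : (J → ℝ) →L[ℝ] ℝ)) z := by
        refine HasFDerivAt.add_const _ (HasFDerivAt.fun_sum fun b _ => ?_)
        exact (ContinuousLinearMap.proj b : (J → ℝ) →L[ℝ] ℝ).hasFDerivAt.const_mul (N a b)
      change fderiv ℝ (fun y => κ y a) z (Pi.single b 1) = _
      rw [h2, h3.fderiv]
      simp [Pi.single_apply]
    rw [h1]
    rfl
  · intro a b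
    apply Sm.ext
    intro z
    change (P₁ a b).1 ⟨κ z, hm z z.2⟩ = _
    rw [hP, ah_sum]
    refine Finset.sum_congr rfl fun i _ => ?_
    rw [ah_sum]
    rfl

end E214
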