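import Pool.Agent.Work.MP_e214ac_gt.RDefs
import Pool.Agent.Work.MP_e214ac_gt.S.Bi2
import Pool.Agent.Work.MP_e214ac_gt.R.InvF

/-!
# Module R/ClosedPar: the symmetry property in arbitrary coordinates, with a parameter

`W ⊆ ℝ^J × ℝ` is open, `E_j` is the partial derivative in the direction `(e_j, 0)`, the bracket is
`∑ s_i (E_i f) (E_{τ i} g)`, and `x_a` are functions on `W` such that for fixed `t` the functions
`x_a(·, t)` are coordinates (invertible Jacobian, inverse matrix `K`).  Claim: `Q` is closed.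

Proof.  Fix a point `(z₀, t₀) ∈ W` and let `h(z) = (x_a(z, t₀))_a`, smooth near `z₀` with invertible
derivative (`K` inverts the Jacobian).  By the inverse function theorem
(`ContDiffAt.toOpenPartialHomeomorph`, `ContDiffAt.to_localInverse`, or
`HasStrictFDerivAt.toOpenPartialHomeomorph`) there are an open `U ∋ y₀ = h(z₀)` and a smooth
`g : U → ℝ^J` with `h (g y) = y`, `(g y, t₀) ∈ W` for `y ∈ U`, `g y₀ = z₀`, and `g (h z) = z` for `z` near
every point `g y`, `y ∈ U` (take `U` inside the target of the partial homeomorphism).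
Call `F : (J → ℝ) → ℝ` and `f ∈ Sm W` related if `F` is smooth on `U` and
`F y = f (g y, t₀)` for all `y ∈ U`.  This relation is compatible with `0, 1, +, *`, real multiples,
and if `F ~ f` then `pd a F ~ (S.d a) f` where `S.d a = ∑_j K_aj E_j`: near `g y` we have
`f(z, t₀) = F (h z)`, so `E_j f (z, t₀) = ∑_b (pd b F)(h z) (E_j x_b)(z, t₀)` and
`∑_j K_aj E_j x_b = δ_ab`.  (`pd a F` only depends on the values on the open set `U`.)
* Put `P' a b y = (S.P a b) (g y, t₀)` for `y ∈ U` (and `0` outside): `P' ~ S.P`.  It is a smooth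
  Poisson bivector on `U`: skew because `S.P` is; `schouten P' P' i j k` is related to
  `cyc S.br S.br (x_i) (x_j) (x_k)` (`{S.P i j, x_k} = ∑_l S.P l k ∂_l (S.P i j)`), which is `0` by
  the Jacobi identity for a bracket with constant coefficients `s_i` and commuting `E_i` (a direct
  computation, or `Darb.jacobi`-style).
* By `evalHom_rel` `evalHom F pd P' i j ~ S.Qc F i j`, so `schouten P' (F(P')) i j k` is related to
  `cyc S.br (S.Q F) (x_i) (x_j) (x_k) = ∑_l (S.P l k ∂_l Q_ij + ... + Q_lk ∂_l P_ij + ...)`.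
  The hypothesis `hF` says that the former vanishes on `U`; evaluate at `y₀`.
* `cyc_ext` extends the claim from the coordinates to all functions.
-/

set_option autoImplicit false

open scoped ContDiff Topology

namespace E214

open TopologicalSpace

variable {J : Type} [Fintype J] [DecidableEq J] {n : ℕ}

/-- the partial derivatives in the directions of `ℝ^J` on an open subset of `ℝ^J × ℝ` -/
noncomputable def parD {W : Opens ((J → ℝ) × ℝ)} (j : J) : Derivation ℝ (Sm W) (Sm W) :=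
  Sm.dir ((Pi.single j 1 : J → ℝ), (0 : ℝ))

theorem parD_comm {W : Opens ((J → ℝ) × ℝ)} (i j : J) (f : Sm W) :
    parD i (parD j f) = parD j (parD i f) := Sm.dir_comm _ _ f

section alg

variable {B : Type} [CommRing B] [Algebra ℝ B]

private theorem cp_br (E : J → Derivation ℝ B B) (hEE : ∀ i j f, E i (E j f) = E j (E i f))
    (s : J → ℝ) (τ : J → J) (hτ : ∀ i, τ (τ i) = i) (hsτ : ∀ i, s (τ i) = - s i)
    (x : J → B) (K : J → J → B)
    (hK : ∀ a b, ∑ j, K a j * E j (x b) = if a = b then 1 else 0) (f g : B) :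
    (AffP.ofDarb E hEE s τ hτ hsτ x K hK).br f g = ∑ i, s i • (E i f * E (τ i) g) := by
  set S := AffP.ofDarb E hEE s τ hτ hsτ x K hK
  have h1 : ∀ i, s i • (E i f * E (τ i) g) = ∑ a, ∑ b, (s i •
      (E i (x a) * E (τ i) (x b))) * S.d a f * S.d b g := by
    intro i
    have e1 : E i f = ∑ a, E i (x a) * S.d a f := ofDarb_expand E hEE s τ hτ hsτ x K hK i f
    have e2 : E (τ i) g = ∑ a, E (τ i) (x a) * S.d a g :=
      ofDarb_expand E hEE s τ hτ hsτ x K hK (τ i) g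
    rw [e1, e2, Finset.sum_mul_sum, Finset.smul_sum]
    refine Finset.sum_congr rfl fun a _ => ?_
    rw [Finset.smul_sum]
    refine Finset.sum_congr rfl fun b _ => ?_
    simp only [smul_mul_assoc]
    congr 1
    ring
  simp only [h1]
  rw [Finset.sum_comm]
  refine Finset.sum_congr rfl fun a _ => ?_
  rw [Finset.sum_comm]
  refine Finset.sum_congr rfl fun b _ => ?_
  change (∑ i, s i • (E i (x a) * E (τ i) (x b))) * _ * _ = _
  rw [Finset.sum_mul, Finset.sum_mul]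

private theorem cp_jacobi (E : J → Derivation ℝ B B) (hEE : ∀ i j f, E i (E j f) = E j (E i f))
    (s : J → ℝ) (τ : J → J) (hτ : ∀ i, τ (τ i) = i) (hsτ : ∀ i, s (τ i) = - s i) (q : B → B → B)
    (hq : ∀ f g, q f g = ∑ i, s i • (E i f * E (τ i) g)) (f g h : B) :
    q (q f g) h + q (q g h) f + q (q h f) g = 0 := by
  obtain ⟨T, hT⟩ : ∃ T : B → B → B → B, ∀ f g h,
      T f g h = ∑ i, ∑ j, (s i * s j) • (E i (E j f) * E (τ j) g * E (τ i) h) := ⟨_, fun _ _ _ => rfl⟩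
  have hsym : ∀ f g h, T f g h = T f h g := by
    intro f g h
    rw [hT, hT, Finset.sum_comm]
    refine Finset.sum_congr rfl fun i _ => Finset.sum_congr rfl fun j _ => ?_
    rw [hEE j i, mul_comm (s j) (s i)]
    congr 1
    ring
  have key : ∀ f g h, q (q f g) h = T f g h - T g f h := by
    intro f g h
    have h2 : ∀ i, E i (q f g) = ∑ j, s j • (E i (E j f) * E (τ j) g)
        - ∑ j, s j • (E i (E j g) * E (τ j) f) := by
      intro i
      have h3 : ∑ j, s j • (E i (E j g) * E (τ j) f)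
          = - ∑ j, s j • (E j f * E i (E (τ j) g)) := by
        rw [← Finset.sum_neg_distrib]
        refine Finset.sum_nbij' τ τ (by simp) (by simp) (by simp [hτ]) (by simp [hτ]) ?_
        intro j _
        rw [hsτ, neg_smul, neg_neg, hτ, mul_comm]
      rw [h3, sub_neg_eq_add, hq, map_sum, ← Finset.sum_add_distrib]
      refine Finset.sum_congr rfl fun j _ => ?_
      rw [Derivation.map_smul, Derivation.leibniz, smul_eq_mul, smul_eq_mul, ← smul_add]
      congr 1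
      ring
    rw [hq (q f g) h, hT, hT, ← Finset.sum_sub_distrib]
    refine Finset.sum_congr rfl fun i _ => ?_
    rw [h2, sub_mul, smul_sub, Finset.sum_mul, Finset.sum_mul, Finset.smul_sum, Finset.smul_sum]
    congr 1
    · refine Finset.sum_congr rfl fun j _ => ?_
      rw [smul_mul_assoc, smul_smul]
    · refine Finset.sum_congr rfl fun j _ => ?_
      rw [smul_mul_assoc, smul_smul]
  rw [key, key, key, hsym f g h, hsym g h f, hsym h f g]
  ring

private theorem cp_br_x (S : AffP J B) (f : B) (k : J) :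
    S.br f (S.x k) = ∑ l, S.P l k * S.d l f := by
  unfold AffP.br
  refine Finset.sum_congr rfl fun l _ => ?_
  simp [S.hdx]

private theorem cp_Q_x (S : AffP J B) (F : List (ℝ × Diagram n)) (f : B) (k : J) :
    S.Q F f (S.x k) = ∑ l, S.Qc F l k * S.d l f := by
  unfold AffP.Q
  refine Finset.sum_congr rfl fun l _ => ?_
  simp [S.hdx]

end alg

/-- the Schouten bracket in the coordinates `x` -/
private def cpSch {B : Type} [CommRing B] [Algebra ℝ B] (S : AffP J B) (q : J → J → B)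
    (i j k : J) : B :=
  ∑ l, (S.P l k * S.d l (q i j) + S.P l i * S.d l (q j k) + S.P l j * S.d l (q k i)
      + q l k * S.d l (S.P i j) + q l i * S.d l (S.P j k) + q l j * S.d l (S.P k i))

private theorem cp_cyc {B : Type} [CommRing B] [Algebra ℝ B] (S : AffP J B)
    (F : List (ℝ × Diagram n)) (i j k : J) :
    cyc S.br (S.Q F) (S.x i) (S.x j) (S.x k) = cpSch S (S.Qc F) i j k := by
  unfold cyc cpSch
  simp only [AffP.Q_x, AffP.br_x]
  simp only [cp_br_x, cp_Q_x, Finset.sum_add_distrib]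

private theorem cp_cyc_br {B : Type} [CommRing B] [Algebra ℝ B] (S : AffP J B) (i j k : J) :
    cyc S.br S.br (S.x i) (S.x j) (S.x k) = cpSch S S.P i j k := by
  unfold cyc cpSch
  simp only [AffP.br_x]
  simp only [cp_br_x, Finset.sum_add_distrib]

/-- the relation between functions on the coordinate space and functions on `W` -/
private def cpRel (W : Opens ((J → ℝ) × ℝ)) (t₀ : ℝ) (Φ : (J → ℝ) → (J → ℝ)) (V : Set (J → ℝ))
    (F : (J → ℝ) → ℝ) (f : Sm W) : Prop :=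
  ContDiffOn ℝ ∞ F V ∧ ∀ y ∈ V, F y = ext0 W f.1 (Φ y, t₀)

private theorem cp_main (F : List (ℝ × Diagram n)) (hF : IsSymHom J F) (W : Opens ((J → ℝ) × ℝ))
    (s : J → ℝ) (τ : J → J) (hτ : ∀ i, τ (τ i) = i) (hsτ : ∀ i, s (τ i) = - s i)
    (x : J → Sm W) (K : J → J → Sm W)
    (hK : ∀ a b, ∑ j, K a j * parD j (x b) = if a = b then 1 else 0)
    (t₀ : ℝ) (Φ : (J → ℝ) → (J → ℝ)) (V : Set (J → ℝ)) (hV : IsOpen V)
    (hΦ : ContDiffOn ℝ ∞ Φ V) (hm : ∀ y ∈ V, (Φ y, t₀) ∈ W)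
    (hΦx : ∀ y ∈ V, ∀ a, ext0 W (x a).1 (Φ y, t₀) = y a) (i j k : J) (y : J → ℝ) (hy : y ∈ V) :
    (cpSch (AffP.ofDarb parD parD_comm s τ hτ hsτ x K hK)
      ((AffP.ofDarb parD parD_comm s τ hτ hsτ x K hK).Qc F) i j k).1 ⟨(Φ y, t₀), hm y hy⟩ = 0 := by
  set S := AffP.ofDarb parD parD_comm s τ hτ hsτ x K hK with hS
  have hin : ContDiffOn ℝ ∞ (fun y => ((Φ y, t₀) : (J → ℝ) × ℝ)) V := hΦ.prodMk contDiffOn_const
  have hcomp : ∀ f : Sm W, ContDiffOn ℝ ∞ (fun y => ext0 W f.1 (Φ y, t₀)) V := fun f =>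
    f.2.comp hin hm
  -- chain rule
  have hchain : ∀ (f : Sm W) (a : J), ∀ y (hy : y ∈ V), fderiv ℝ (fun y => ext0 W f.1 (Φ y, t₀)) y
      (Pi.single a 1) = ∑ j, (parD j f).1 ⟨(Φ y, t₀), hm y hy⟩ * fderiv ℝ Φ y (Pi.single a 1) j := by
    intro f a y hy
    have h1 : DifferentiableAt ℝ Φ y :=
      (hΦ.contDiffAt (hV.mem_nhds hy)).differentiableAt (by simp)
    have h2 : HasFDerivAt (fun y => ((Φ y, t₀) : (J → ℝ) × ℝ)) ((fderiv ℝ Φ y).prod 0) y :=
      h1.hasFDerivAt.prodMk (hasFDerivAt_const t₀ y)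
    have h3 := (Sm.differentiableAt f (hm y hy)).hasFDerivAt.comp y h2
    have h4 : fderiv ℝ (fun y => ext0 W f.1 (Φ y, t₀)) y
        = (fderiv ℝ (ext0 W f.1) (Φ y, t₀)).comp ((fderiv ℝ Φ y).prod 0) := h3.fderiv
    rw [h4]
    change fderiv ℝ (ext0 W f.1) (Φ y, t₀) (fderiv ℝ Φ y (Pi.single a 1), 0) = _
    have h5 : ((fderiv ℝ Φ y (Pi.single a 1), (0 : ℝ)) : (J → ℝ) × ℝ)
        = ∑ j, fderiv ℝ Φ y (Pi.single a 1) j • ((Pi.single j 1 : J → ℝ), (0 : ℝ)) := by
      refine Prod.ext ?_ ?_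
      · rw [Prod.fst_sum]
        funext c
        rw [Finset.sum_apply]
        simp [Pi.single_apply]
      · rw [Prod.snd_sum]
        simp
    rw [h5, map_sum]
    refine Finset.sum_congr rfl fun j _ => ?_
    rw [map_smul, smul_eq_mul, mul_comm]
    rfl
  -- the derivative of `Φ` is the inverse Jacobian
  have hdΦ : ∀ y (hy : y ∈ V) (a j : J),
      fderiv ℝ Φ y (Pi.single a 1) j = (K a j).1 ⟨(Φ y, t₀), hm y hy⟩ := by
    intro y hy a j
    have h1 : ∀ b, ∑ j, (parD j (x b)).1 ⟨(Φ y, t₀), hm y hy⟩ * fderiv ℝ Φ y (Pi.single a 1) j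
        = if a = b then 1 else 0 := by
      intro b
      rw [← hchain (x b) a y hy]
      have h2 : fderiv ℝ (fun y => ext0 W (x b).1 (Φ y, t₀)) y = fderiv ℝ (fun y => y b) y := by
        apply Filter.EventuallyEq.fderiv_eq
        filter_upwards [hV.mem_nhds hy] with z hz using hΦx z hz b
      rw [h2]
      have h3 : HasFDerivAt (fun y : J → ℝ => y b) (ContinuousLinearMap.proj b : (J → ℝ) →L[ℝ] ℝ) y :=
        (ContinuousLinearMap.proj b : (J → ℝ) →L[ℝ] ℝ).hasFDerivAt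
      rw [h3.fderiv]
      simp [Pi.single_apply, eq_comm]
    have h2 : ∀ i, ∑ b, (parD i (x b)).1 ⟨(Φ y, t₀), hm y hy⟩ * (K b j).1 ⟨(Φ y, t₀), hm y hy⟩
        = if i = j then 1 else 0 := by
      intro i
      have h3 := congrArg (fun f : Sm W => f.1 ⟨(Φ y, t₀), hm y hy⟩)
        (inv_swap (parD (W := W)) x K hK i j)
      have h4 : (∑ b, parD i (x b) * K b j : Sm W).1 ⟨(Φ y, t₀), hm y hy⟩
          = ∑ b, (parD i (x b)).1 ⟨(Φ y, t₀), hm y hy⟩ * (K b j).1 ⟨(Φ y, t₀), hm y hy⟩ := by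
        rw [AddSubmonoidClass.coe_finsetSum, Finset.sum_apply]
        rfl
      have h5 : (if i = j then (1 : Sm W) else 0).1 ⟨(Φ y, t₀), hm y hy⟩ = if i = j then 1 else 0 := by
        split_ifs <;> rfl
      rw [← h4, ← h5]
      exact h3
    have h3 : ∑ b, (∑ i, (parD i (x b)).1 ⟨(Φ y, t₀), hm y hy⟩ * fderiv ℝ Φ y (Pi.single a 1) i)
        * (K b j).1 ⟨(Φ y, t₀), hm y hy⟩ = fderiv ℝ Φ y (Pi.single a 1) j := by
      simp only [Finset.sum_mul]
      rw [Finset.sum_comm]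
      have h4 : ∀ i, ∑ b, (parD i (x b)).1 ⟨(Φ y, t₀), hm y hy⟩ * fderiv ℝ Φ y (Pi.single a 1) i
          * (K b j).1 ⟨(Φ y, t₀), hm y hy⟩
          = (if i = j then 1 else 0) * fderiv ℝ Φ y (Pi.single a 1) i := by
        intro i
        rw [← h2 i, Finset.sum_mul]
        exact Finset.sum_congr rfl fun b _ => by ring
      simp [h4]
    rw [← h3]
    simp [h1]
  -- the relation
  have r0 : cpRel W t₀ Φ V 0 (0 : Sm W) := ⟨contDiffOn_const, fun y hy => by
    rw [ext0_of_mem _ (hm y hy)]; rfl⟩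
  have r1 : cpRel W t₀ Φ V 1 (1 : Sm W) := ⟨contDiffOn_const, fun y hy => by
    rw [ext0_of_mem _ (hm y hy)]; rfl⟩
  have radd : ∀ f f' g g', cpRel W t₀ Φ V f f' → cpRel W t₀ Φ V g g' →
      cpRel W t₀ Φ V (f + g) (f' + g') := by
    rintro f f' g g' ⟨hf1, hf2⟩ ⟨hg1, hg2⟩
    refine ⟨hf1.add hg1, fun y hy => ?_⟩
    rw [Pi.add_apply, hf2 y hy, hg2 y hy, ext0_of_mem _ (hm y hy), ext0_of_mem _ (hm y hy),
      ext0_of_mem _ (hm y hy)]
    rfl
  have rmul : ∀ f f' g g', cpRel W t₀ Φ V f f' → cpRel W t₀ Φ V g g' →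
      cpRel W t₀ Φ V (f * g) (f' * g') := by
    rintro f f' g g' ⟨hf1, hf2⟩ ⟨hg1, hg2⟩
    refine ⟨hf1.mul hg1, fun y hy => ?_⟩
    rw [Pi.mul_apply, hf2 y hy, hg2 y hy, ext0_of_mem _ (hm y hy), ext0_of_mem _ (hm y hy),
      ext0_of_mem _ (hm y hy)]
    rfl
  have rsmul : ∀ (c : ℝ) f f', cpRel W t₀ Φ V f f' → cpRel W t₀ Φ V (c • f) (c • f') := by
    rintro c f f' ⟨hf1, hf2⟩
    refine ⟨contDiffOn_const.smul hf1, fun y hy => ?_⟩
    rw [Pi.smul_apply, hf2 y hy, ext0_of_mem _ (hm y hy), ext0_of_mem _ (hm y hy)]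
    rfl
  have rd : ∀ a f f', cpRel W t₀ Φ V f f' → cpRel W t₀ Φ V (pd a f) (S.d a f') := by
    rintro a f f' ⟨hf1, hf2⟩
    refine ⟨?_, fun y hy => ?_⟩
    · exact contDiffOn_fderiv_apply (W := ⟨V, hV⟩) hf1 (Pi.single a 1)
    · have h1 : fderiv ℝ f y = fderiv ℝ (fun y => ext0 W f'.1 (Φ y, t₀)) y := by
        apply Filter.EventuallyEq.fderiv_eq
        filter_upwards [hV.mem_nhds hy] with z hz using hf2 z hz
      change fderiv ℝ f y (Pi.single a 1) = _
      rw [h1, hchain f' a y hy, ext0_of_mem _ (hm y hy)]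
      have h2 : S.d a f' = ∑ j, K a j * parD j f' := der_comb_apply (K a) (fun j => parD j) f'
      rw [h2, AddSubmonoidClass.coe_finsetSum, Finset.sum_apply]
      refine Finset.sum_congr rfl fun j _ => ?_
      rw [hdΦ y hy]
      exact mul_comm _ _
  let P' : J → J → (J → ℝ) → ℝ := fun a b y => ext0 W (S.P a b).1 (Φ y, t₀)
  have rP : ∀ a b, cpRel W t₀ Φ V (P' a b) (S.P a b) := fun a b => ⟨hcomp _, fun y hy => rfl⟩
  have rQ : ∀ a b, cpRel W t₀ Φ V (evalHom F pd P' a b) (S.Qc F a b) := fun a b =>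
    evalHom_rel (cpRel W t₀ Φ V) r0 r1 radd rmul rsmul pd (fun c f => S.d c f) rd P' S.P rP F a b
  have rS : ∀ (q : J → J → (J → ℝ) → ℝ) (q' : J → J → Sm W),
      (∀ a b, cpRel W t₀ Φ V (q a b) (q' a b)) →
      cpRel W t₀ Φ V (schouten P' q i j k) (cpSch S q' i j k) := by
    intro q q' hq
    unfold schouten cpSch
    refine sum_rel (cpRel W t₀ Φ V) r0 radd _ _ _ fun l _ => ?_
    refine radd _ _ _ _ (radd _ _ _ _ (radd _ _ _ _ (radd _ _ _ _ (radd _ _ _ _ ?_ ?_) ?_) ?_) ?_) ?_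
    · exact rmul _ _ _ _ (rP _ _) (rd _ _ _ (hq _ _))
    · exact rmul _ _ _ _ (rP _ _) (rd _ _ _ (hq _ _))
    · exact rmul _ _ _ _ (rP _ _) (rd _ _ _ (hq _ _))
    · exact rmul _ _ _ _ (hq _ _) (rd _ _ _ (rP _ _))
    · exact rmul _ _ _ _ (hq _ _) (rd _ _ _ (rP _ _))
    · exact rmul _ _ _ _ (hq _ _) (rd _ _ _ (rP _ _))
  have hbr : ∀ f g, S.br f g = ∑ i, s i • (parD i f * parD (τ i) g) := fun f g =>
    cp_br (parD (W := W)) parD_comm s τ hτ hsτ x K hK f g
  have hPois : IsPoissonOn P' V := by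
    refine ⟨fun a b => hcomp _, fun a b y hy => ?_, fun a b c y hy => ?_⟩
    · change ext0 W (S.P a b).1 (Φ y, t₀) = - ext0 W (S.P b a).1 (Φ y, t₀)
      rw [ext0_of_mem _ (hm y hy), ext0_of_mem _ (hm y hy), S.hanti a b]
      rfl
    · have h1 := cp_cyc_br S a b c
      have h2 : cyc S.br S.br (S.x a) (S.x b) (S.x c) = 0 := by
        have h3 := cp_jacobi (parD (W := W)) parD_comm s τ hτ hsτ S.br hbr (S.x a) (S.x b) (S.x c)
        unfold cyc
        calc _ = (S.br (S.br (S.x a) (S.x b)) (S.x c) + S.br (S.br (S.x b) (S.x c)) (S.x a)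
            + S.br (S.br (S.x c) (S.x a)) (S.x b)) + (S.br (S.br (S.x a) (S.x b)) (S.x c)
            + S.br (S.br (S.x b) (S.x c)) (S.x a) + S.br (S.br (S.x c) (S.x a)) (S.x b)) := by ring
          _ = 0 := by rw [h3, add_zero]
      rw [h1] at h2
      have h4 : cpRel W t₀ Φ V (schouten P' P' a b c) (cpSch S S.P a b c) := by
        unfold schouten cpSch
        refine sum_rel (cpRel W t₀ Φ V) r0 radd _ _ _ fun l _ => ?_
        refine radd _ _ _ _ (radd _ _ _ _ (radd _ _ _ _ (radd _ _ _ _ (radd _ _ _ _ ?_ ?_) ?_) ?_)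
          ?_) ?_
        all_goals exact rmul _ _ _ _ (rP _ _) (rd _ _ _ (rP _ _))
      rw [h4.2 y hy, h2, ext0_of_mem _ (hm y hy)]
      rfl
  have h1 := hF V P' hV hPois i j k y hy
  have h2 := (rS _ _ rQ).2 y hy
  rw [h1, ext0_of_mem _ (hm y hy)] at h2
  exact h2.symm

theorem closed_par (F : List (ℝ × Diagram n)) (hF : IsSymHom J F) (W : Opens ((J → ℝ) × ℝ))
    (s : J → ℝ) (τ : J → J) (hτ : ∀ i, τ (τ i) = i) (hsτ : ∀ i, s (τ i) = - s i)
    (x : J → Sm W) (K : J → J → Sm W)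
    (hK : ∀ a b, ∑ j, K a j * parD j (x b) = if a = b then 1 else 0) (f g h : Sm W) :
    cyc (AffP.ofDarb parD parD_comm s τ hτ hsτ x K hK).br
      ((AffP.ofDarb parD parD_comm s τ hτ hsτ x K hK).Q F) f g h = 0 := by
  refine cyc_ext (isBi_br _) (isBi_Q _ F) ?_ f g h
  intro i j k
  rw [cp_cyc]
  apply Sm.ext
  rintro ⟨⟨z₀, t₀⟩, hp⟩
  -- the slice
  let U : Set (J → ℝ) := {z | (z, t₀) ∈ W}
  have hU : IsOpen U := W.isOpen.preimage (continuous_id.prodMk continuous_const)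
  have hin : ContDiff ℝ ∞ (fun z : J → ℝ => ((z, t₀) : (J → ℝ) × ℝ)) :=
    contDiff_id.prodMk contDiff_const
  let Ψ : (J → ℝ) → (J → ℝ) := fun z a => ext0 W (x a).1 (z, t₀)
  have hΨ : ContDiffOn ℝ ∞ Ψ U :=
    contDiffOn_pi.2 fun a => (x a).2.comp hin.contDiffOn (fun z hz => hz)
  have hpd : ∀ a b : J, pd a (fun y => Ψ y b) z₀ = (parD a (x b)).1 ⟨(z₀, t₀), hp⟩ := by
    intro a b
    have h2 : HasFDerivAt (fun z : J → ℝ => ((z, t₀) : (J → ℝ) × ℝ))
        ((ContinuousLinearMap.id ℝ (J → ℝ)).prod 0) z₀ :=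
      (hasFDerivAt_id z₀).prodMk (hasFDerivAt_const t₀ z₀)
    have h3 := (Sm.differentiableAt (x b) hp).hasFDerivAt.comp z₀ h2
    have h4 : fderiv ℝ (fun y => Ψ y b) z₀ = (fderiv ℝ (ext0 W (x b).1) (z₀, t₀)).comp
        ((ContinuousLinearMap.id ℝ (J → ℝ)).prod 0) := h3.fderiv
    change fderiv ℝ (fun y => Ψ y b) z₀ (Pi.single a 1) = _
    rw [h4]
    rfl
  have hdet : (Matrix.of fun j a => pd a (fun y => Ψ y j) z₀).det ≠ 0 := by
    have h1 : (Matrix.of fun a j => (K a j).1 ⟨(z₀, t₀), hp⟩)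
        * (Matrix.of fun j a => pd a (fun y => Ψ y j) z₀).transpose = 1 := by
      ext a b
      rw [Matrix.mul_apply, Matrix.one_apply]
      have h2 := congrArg (fun f : Sm W => f.1 ⟨(z₀, t₀), hp⟩) (hK a b)
      have h4 : (∑ j, K a j * parD j (x b) : Sm W).1 ⟨(z₀, t₀), hp⟩
          = ∑ j, (K a j).1 ⟨(z₀, t₀), hp⟩ * (parD j (x b)).1 ⟨(z₀, t₀), hp⟩ := by
        rw [AddSubmonoidClass.coe_finsetSum, Finset.sum_apply]
        rfl
      have h5 : (if a = b then (1 : Sm W) else 0).1 ⟨(z₀, t₀), hp⟩ = if a = b then 1 else 0 := by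
        split_ifs <;> rfl
      rw [← h5, ← show _ = (if a = b then (1 : Sm W) else 0).1 ⟨(z₀, t₀), hp⟩ from h2, h4]
      refine Finset.sum_congr rfl fun c _ => ?_
      rw [Matrix.transpose_apply, Matrix.of_apply, Matrix.of_apply, hpd]
    intro h6
    have h7 := congrArg Matrix.det h1
    rw [Matrix.det_mul, Matrix.det_transpose, h6, mul_zero, Matrix.det_one] at h7
    exact zero_ne_one h7
  obtain ⟨Φ, V, hV, hz₀, hΦ, hΦq, hΦV, -, -⟩ := exists_local_inverse Ψ U hU z₀ hp hΨ hdet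
  have key := cp_main F hF W s τ hτ hsτ x K hK t₀ Φ V hV hΦ (fun y hy => (hΦV y hy).1)
    (fun y hy a => congrFun (hΦV y hy).2 a) i j k (Ψ z₀) hz₀
  have h8 : (⟨(Φ (Ψ z₀), t₀), (hΦV (Ψ z₀) hz₀).1⟩ : W) = ⟨(z₀, t₀), hp⟩ := by
    apply Subtype.ext
    change (Φ (Ψ z₀), t₀) = (z₀, t₀)
    rw [hΦq]
  rw [h8] at key
  exact key

end E214
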