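import Pool.Agent.Work.MP_e214ac_gt.RDefs
import Pool.Agent.Work.MP_e214ac_gt.R.PInt

/-!
# Module R/PoinL: the Poincaré lemma along some of the coordinates

Proof.  Let `r > 0` with `ball z₀ r ⊆ Ω` (sup norm).  For `z` in the ball and `t ∈ [0,1]` let
`γ(z, t)_i = z₀_i + t (z_i - z₀_i)` for `i ∈ L`, `γ(z, t)_i = z_i` for `i ∉ L`; `γ(z, t)` is again in the
ball (also for `t` in a neighbourhood of `[0,1]`, after shrinking in `z`; `V = γ⁻¹(ball)` is open).
Define `f z = ∫ t in 0..1, ∑_{k ∈ L} ω_k(γ(z,t)) (z_k - z₀_k)`.  It is smooth (`contDiffOn_param_integral`)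
and for `i ∈ L`
`∂_i f (z) = ∫ [∑_{k ∈ L} t (∂_i ω_k)(γ) (z_k - z₀_k) + ω_i(γ)] dt
 = ∫ [t ∑_{k ∈ L} (∂_k ω_i)(γ) (z_k - z₀_k) + ω_i(γ)] dt = ∫ d/dt (t ω_i(γ(z,t))) dt = ω_i(z)`.
-/

set_option autoImplicit false

open scoped ContDiff Topology

namespace E214

variable {J : Type} [Fintype J] [DecidableEq J]

/-- the homotopy -/
private def poinLg (L : Finset J) (z₀ : J → ℝ) (p : (J → ℝ) × ℝ) (i : J) : ℝ :=
  if i ∈ L then z₀ i + p.2 * (p.1 i - z₀ i) else p.1 i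

private theorem poinLg_contDiff (L : Finset J) (z₀ : J → ℝ) :
    ContDiff ℝ ∞ (poinLg L z₀) := by
  rw [contDiff_pi]
  intro i
  unfold poinLg
  by_cases hi : i ∈ L
  · simp only [if_pos hi]
    have h1 : ContDiff ℝ ∞ (fun p : (J → ℝ) × ℝ => p.1 i) :=
      (contDiff_apply ℝ ℝ i).comp contDiff_fst
    exact contDiff_const.add (contDiff_snd.mul (h1.sub contDiff_const))
  · simp only [if_neg hi]
    exact (contDiff_apply ℝ ℝ i).comp contDiff_fst

private theorem poinLg_mem (L : Finset J) (z₀ : J → ℝ) (r : ℝ) (hr : 0 < r) (z : J → ℝ)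
    (hz : z ∈ Metric.ball z₀ r) (t : ℝ) (ht : t ∈ Set.Icc (0 : ℝ) 1) :
    poinLg L z₀ (z, t) ∈ Metric.ball z₀ r := by
  rw [Metric.mem_ball, dist_pi_lt_iff hr] at hz ⊢
  intro i
  unfold poinLg
  by_cases hi : i ∈ L
  · rw [if_pos hi]
    refine lt_of_le_of_lt ?_ (hz i)
    rw [Real.dist_eq, Real.dist_eq]
    have h1 : z₀ i + (z, t).2 * ((z, t).1 i - z₀ i) - z₀ i = t * (z i - z₀ i) := by
      simp only []; ring
    rw [h1, abs_mul, abs_of_nonneg ht.1]
    exact mul_le_of_le_one_left (abs_nonneg _) ht.2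
  · rw [if_neg hi]
    exact hz i

private theorem poinLg_one (L : Finset J) (z₀ z : J → ℝ) : poinLg L z₀ (z, 1) = z := by
  funext i
  unfold poinLg
  split_ifs
  · simp
  · rfl

private theorem poinLg_dir (L : Finset J) (z₀ z : J → ℝ) (t : ℝ) (i : J) (hi : i ∈ L) :
    HasDerivAt (fun s : ℝ => poinLg L z₀ (z + s • (Pi.single i 1 : J → ℝ), t))
      (t • (Pi.single i 1 : J → ℝ)) 0 := by
  rw [hasDerivAt_pi]
  intro k
  have h0 : HasDerivAt (fun s : ℝ => (z + s • (Pi.single i 1 : J → ℝ)) k)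
      ((Pi.single i 1 : J → ℝ) k) 0 := by
    simp only [Pi.add_apply, Pi.smul_apply, smul_eq_mul]
    simpa using ((hasDerivAt_id (0 : ℝ)).mul_const ((Pi.single i 1 : J → ℝ) k)).const_add (z k)
  unfold poinLg
  by_cases hk : k ∈ L
  · simp only [if_pos hk]
    exact ((h0.sub_const (z₀ k)).const_mul t).const_add (z₀ k)
  · simp only [if_neg hk]
    have hik : k ≠ i := fun h => hk (h ▸ hi)
    rw [Pi.smul_apply, Pi.single_eq_of_ne hik, smul_zero]
    rwa [Pi.single_eq_of_ne hik] at h0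

private theorem poinLg_time (L : Finset J) (z₀ z : J → ℝ) (t : ℝ) :
    HasDerivAt (fun s : ℝ => poinLg L z₀ (z, s))
      (∑ k ∈ L, (z k - z₀ k) • (Pi.single k 1 : J → ℝ)) t := by
  rw [hasDerivAt_pi]
  intro j
  rw [Finset.sum_apply]
  simp only [Pi.smul_apply, smul_eq_mul]
  unfold poinLg
  by_cases hj : j ∈ L
  · simp only [if_pos hj]
    have h1 : ∑ k ∈ L, (z k - z₀ k) * (Pi.single k 1 : J → ℝ) j = z j - z₀ j := by
      rw [Finset.sum_eq_single_of_mem j hj]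
      · simp
      · intro k _ hk
        rw [Pi.single_eq_of_ne hk.symm, mul_zero]
    rw [h1]
    simpa using ((hasDerivAt_id t).mul_const (z j - z₀ j)).const_add (z₀ j)
  · simp only [if_neg hj]
    have h1 : ∑ k ∈ L, (z k - z₀ k) * (Pi.single k 1 : J → ℝ) j = 0 := by
      refine Finset.sum_eq_zero fun k hk => ?_
      have : j ≠ k := fun h => hj (h ▸ hk)
      rw [Pi.single_eq_of_ne this, mul_zero]
    rw [h1]
    exact hasDerivAt_const t (z j)

theorem poincare_leaf (L : Finset J) (Ω : Set (J → ℝ)) (hΩ : IsOpen Ω) (z₀ : J → ℝ) (hz₀ : z₀ ∈ Ω)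
    (om : J → (J → ℝ) → ℝ) (hom : ∀ i ∈ L, ContDiffOn ℝ ∞ (om i) Ω)
    (hcl : ∀ i ∈ L, ∀ k ∈ L, ∀ z ∈ Ω, pd i (om k) z = pd k (om i) z) :
    ∃ r : ℝ, 0 < r ∧ Metric.ball z₀ r ⊆ Ω ∧ ∃ f : (J → ℝ) → ℝ,
      ContDiffOn ℝ ∞ f (Metric.ball z₀ r) ∧
      ∀ i ∈ L, ∀ z ∈ Metric.ball z₀ r, pd i f z = om i z := by
  obtain ⟨r, hr, hrΩ⟩ := Metric.isOpen_iff.1 hΩ z₀ hz₀
  set g := poinLg L z₀ with hg
  have hgs : ContDiff ℝ ∞ g := poinLg_contDiff L z₀
  set V : Set ((J → ℝ) × ℝ) := g ⁻¹' Metric.ball z₀ r with hVdef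
  have hV : IsOpen V := Metric.isOpen_ball.preimage hgs.continuous
  have hUV : ∀ x ∈ Metric.ball z₀ r, ∀ t ∈ Set.Icc (0 : ℝ) 1, (x, t) ∈ V :=
    fun x hx t ht => poinLg_mem L z₀ r hr x hx t ht
  set F : (J → ℝ) × ℝ → ℝ := fun p => ∑ k ∈ L, om k (g p) * (p.1 k - z₀ k) with hFdef
  have hF : ContDiffOn ℝ ∞ F V := by
    refine ContDiffOn.sum fun k hk => ?_
    refine ContDiffOn.mul ?_ ?_
    · exact (hom k hk).comp hgs.contDiffOn fun p hp => hrΩ hp
    · have h1 : ContDiff ℝ ∞ (fun p : (J → ℝ) × ℝ => p.1 k) :=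
        (contDiff_apply ℝ ℝ k).comp contDiff_fst
      exact (h1.sub contDiff_const).contDiffOn
  obtain ⟨hf, hfd⟩ := contDiffOn_param_integral (Metric.ball z₀ r) Metric.isOpen_ball V hV hUV F hF
  refine ⟨r, hr, hrΩ, fun x => ∫ t in (0 : ℝ)..1, F (x, t), hf, fun i hi z hz => ?_⟩
  unfold pd
  rw [hfd z hz]
  have hdom : ∀ k ∈ L, ∀ t ∈ Set.Icc (0 : ℝ) 1, HasFDerivAt (om k) (fderiv ℝ (om k) (g (z, t)))
      (g (z, t)) := fun k hk t ht =>
    (((hom k hk).contDiffAt (hΩ.mem_nhds (hrΩ (hUV z hz t ht)))).differentiableAt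
      (by simp)).hasFDerivAt
  -- the integrand
  have hint : ∀ t ∈ Set.Icc (0 : ℝ) 1, fderiv ℝ F (z, t) (Pi.single i 1, 0)
      = om i (g (z, t)) + t * ∑ k ∈ L, (z k - z₀ k) * pd k (om i) (g (z, t)) := by
    intro t ht
    have hFt : HasFDerivAt F (fderiv ℝ F (z, t)) (z, t) :=
      ((hF.contDiffAt (hV.mem_nhds (hUV z hz t ht))).differentiableAt (by simp)).hasFDerivAt
    have hcz : HasDerivAt (fun s : ℝ => z + s • (Pi.single i 1 : J → ℝ))
        (Pi.single i 1 : J → ℝ) 0 := by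
      simpa using ((hasDerivAt_id (0 : ℝ)).smul_const (Pi.single i 1 : J → ℝ)).const_add z
    have hc : HasDerivAt (fun s : ℝ => ((z + s • (Pi.single i 1 : J → ℝ), t) : (J → ℝ) × ℝ))
        ((Pi.single i 1 : J → ℝ), (0 : ℝ)) 0 := hcz.prodMk (hasDerivAt_const 0 t)
    have hz0 : z + (0 : ℝ) • (Pi.single i 1 : J → ℝ) = z := by simp
    have hA : HasDerivAt (fun s : ℝ => F (z + s • (Pi.single i 1 : J → ℝ), t))
        (fderiv ℝ F (z, t) (Pi.single i 1, 0)) 0 := by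
      have hFt' : HasFDerivAt F (fderiv ℝ F (z, t))
          (z + (0 : ℝ) • (Pi.single i 1 : J → ℝ), t) := by rw [hz0]; exact hFt
      exact hFt'.comp_hasDerivAt (0 : ℝ) hc
    have hB : HasDerivAt (fun s : ℝ => F (z + s • (Pi.single i 1 : J → ℝ), t))
        (∑ k ∈ L, (fderiv ℝ (om k) (g (z, t)) (t • (Pi.single i 1 : J → ℝ)) * (z k - z₀ k)
          + om k (g (z, t)) * (Pi.single i 1 : J → ℝ) k)) 0 := by
      refine HasDerivAt.fun_sum fun k hk => ?_
      have h1 : HasDerivAt (fun s : ℝ => om k (g (z + s • (Pi.single i 1 : J → ℝ), t)))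
          (fderiv ℝ (om k) (g (z, t)) (t • (Pi.single i 1 : J → ℝ))) 0 := by
        have h2 : HasFDerivAt (om k) (fderiv ℝ (om k) (g (z, t)))
            (g (z + (0 : ℝ) • (Pi.single i 1 : J → ℝ), t)) := by rw [hz0]; exact hdom k hk t ht
        exact h2.comp_hasDerivAt (0 : ℝ) (poinLg_dir L z₀ z t i hi)
      have h3 : HasDerivAt (fun s : ℝ => (z + s • (Pi.single i 1 : J → ℝ)) k - z₀ k)
          ((Pi.single i 1 : J → ℝ) k) 0 := by
        have := (hasDerivAt_pi.1 hcz k)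
        exact this.sub_const (z₀ k)
      have h4 := h1.mul h3
      simp only [hz0] at h4
      exact h4
    rw [hA.unique hB, Finset.sum_add_distrib, add_comm]
    congr 1
    · rw [Finset.sum_eq_single_of_mem i hi]
      · simp
      · intro k _ hk
        rw [Pi.single_eq_of_ne hk, mul_zero]
    · rw [Finset.mul_sum]
      refine Finset.sum_congr rfl fun k hk => ?_
      rw [map_smul, smul_eq_mul]
      have h5 := hcl i hi k hk (g (z, t)) (hrΩ (hUV z hz t ht))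
      rw [← h5]
      unfold pd
      ring
  have hgderiv : ∀ t ∈ Set.uIcc (0 : ℝ) 1, HasDerivAt (fun s : ℝ => s * om i (g (z, s)))
      (fderiv ℝ F (z, t) (Pi.single i 1, 0)) t := by
    intro t ht
    rw [Set.uIcc_of_le zero_le_one] at ht
    rw [hint t ht]
    have h1 : HasDerivAt (fun s : ℝ => om i (g (z, s)))
        (fderiv ℝ (om i) (g (z, t)) (∑ k ∈ L, (z k - z₀ k) • (Pi.single k 1 : J → ℝ))) t :=
      (hdom i hi t ht).comp_hasDerivAt t (poinLg_time L z₀ z t)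
    have h2 := (hasDerivAt_id t).mul h1
    rw [map_sum] at h2
    simp only [map_smul, smul_eq_mul, id, one_mul] at h2
    exact h2
  have hii : IntervalIntegrable (fun t => fderiv ℝ F (z, t) (Pi.single i 1, 0))
      MeasureTheory.volume 0 1 := by
    apply ContinuousOn.intervalIntegrable
    rw [Set.uIcc_of_le zero_le_one]
    have h1 : ContinuousOn (fun p => fderiv ℝ F p ((Pi.single i 1 : J → ℝ), (0 : ℝ))) V :=
      (hF.continuousOn_fderiv_of_isOpen hV (by simp)).clm_apply continuousOn_const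
    exact h1.comp (Continuous.continuousOn (by fun_prop)) (hUV z hz)
  rw [intervalIntegral.integral_eq_sub_of_hasDerivAt hgderiv hii]
  rw [hg, poinLg_one]
  ring

end E214
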